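import Pool.Agent.Run7.h876.MN.Law

/-!
# Sums of bounded local functions with arbitrary weights
-/

set_option autoImplicit false
set_option linter.unusedSectionVars false

namespace Run7.h876.SU

open NumberField IsDedekindDomain Finset Filter Topology MeasureTheory
open Run7.h876.MM (nv kv two_le_nv nv_pos avg norm_avg_le SZ mem_SZ card_SZ instFieldKv instFintypeKv instDecKv)
open Run7.h876.EN Run7.h876.PW Run7.h876.MN
open Run7.h9.BS (cv cv_pos prop Phi emp emp_prob emp_charFun emp_Iic)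

/-- Bounded local functions which are centred and orthogonal up to `O(1/Nv)`. -/
structure Loc (K : Type) [Field K] [NumberField K] (J : Type) [Fintype J] [DecidableEq J] (I : Type) [Fintype I] [DecidableEq I] where
  f : I → ∀ v : HeightOneSpectrum (𝓞 K), (J → kv v) → ℝ
  D : I → ℝ
  M : ℝ
  E : ℝ
  d : ℝ
  d_pos : 0 < d
  d_le : ∀ i, d ≤ D i
  M_nonneg : 0 ≤ M
  E_nonneg : 0 ≤ E
  f_le : ∀ i v t, |f i v t| ≤ M
  mean_le : ∀ i v, |av Finset.univ (f i v)| ≤ E / nv v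
  cov_le : ∀ i j v, |av Finset.univ (fun t => f i v t * f j v t) - (if i = j then D i else 0)| ≤ E / nv v

section
variable {K : Type} [Field K] [NumberField K] {J : Type} [Fintype J] [DecidableEq J] {I : Type} [Fintype I] [DecidableEq I]
variable (𝓛 : Loc K J I) (c : I → HeightOneSpectrum (𝓞 K) → ℝ)

/-- the local function -/
noncomputable def gg (v : HeightOneSpectrum (𝓞 K)) (t : J → kv v) : ℝ := ∑ i, c i v * 𝓛.f i v t

/-- the variance -/
noncomputable def VV (Z : ℕ) : ℝ := ∑ v ∈ SZ K Z, ∑ i, 𝓛.D i * c i v ^ 2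

/-- the sum -/
noncomputable def SS (Z : ℕ) (t : J → 𝓞 K) : ℝ := ∑ v ∈ SZ K Z, gg 𝓛 c v (rd v t)

/-- the square of the norm of the vector of the weights -/
noncomputable def rho (v : HeightOneSpectrum (𝓞 K)) : ℝ := ∑ i, c i v ^ 2

theorem rho_nonneg (v : HeightOneSpectrum (𝓞 K)) : 0 ≤ rho c v := Finset.sum_nonneg fun _ _ => sq_nonneg _

theorem c_le_rho (i : I) (v : HeightOneSpectrum (𝓞 K)) : |c i v| ≤ Real.sqrt (rho c v) := by
  rw [← Real.sqrt_sq_eq_abs]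
  exact Real.sqrt_le_sqrt (Finset.single_le_sum (f := fun i => c i v ^ 2) (fun _ _ => sq_nonneg _) (Finset.mem_univ i))

theorem gg_le (v : HeightOneSpectrum (𝓞 K)) (t : J → kv v) :
    |gg 𝓛 c v t| ≤ Fintype.card I * 𝓛.M * Real.sqrt (rho c v) := by
  unfold gg
  refine (Finset.abs_sum_le_sum_abs _ _).trans ?_
  calc ∑ i, |c i v * 𝓛.f i v t| ≤ ∑ _i : I, Real.sqrt (rho c v) * 𝓛.M := by
        refine Finset.sum_le_sum fun i _ => ?_
        rw [abs_mul]
        exact mul_le_mul (c_le_rho c i v) (𝓛.f_le i v t) (abs_nonneg _) (Real.sqrt_nonneg _)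
    _ = _ := by rw [Finset.sum_const, Finset.card_univ, nsmul_eq_mul]; ring

theorem av_gg (v : HeightOneSpectrum (𝓞 K)) : av Finset.univ (gg 𝓛 c v) = ∑ i, c i v * av Finset.univ (𝓛.f i v) := by
  have e : gg 𝓛 c v = fun t => ∑ i, (fun i t => c i v * 𝓛.f i v t) i t := rfl
  rw [e, av_sum]
  exact Finset.sum_congr rfl fun i _ => av_mul _ _ _

theorem av_gg_le (v : HeightOneSpectrum (𝓞 K)) :
    |av Finset.univ (gg 𝓛 c v)| ≤ Fintype.card I * 𝓛.E * (Real.sqrt (rho c v) / nv v) := by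
  have hq := nv_pos v
  rw [av_gg]
  refine (Finset.abs_sum_le_sum_abs _ _).trans ?_
  calc ∑ i, |c i v * av Finset.univ (𝓛.f i v)| ≤ ∑ _i : I, Real.sqrt (rho c v) * (𝓛.E / nv v) := by
        refine Finset.sum_le_sum fun i _ => ?_
        rw [abs_mul]
        exact mul_le_mul (c_le_rho c i v) (𝓛.mean_le i v) (abs_nonneg _) (Real.sqrt_nonneg _)
    _ = _ := by rw [Finset.sum_const, Finset.card_univ, nsmul_eq_mul]; ring

theorem av_sq (v : HeightOneSpectrum (𝓞 K)) :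
    av Finset.univ (fun t => gg 𝓛 c v t ^ 2) = ∑ i, ∑ j, c i v * c j v * av Finset.univ (fun t => 𝓛.f i v t * 𝓛.f j v t) := by
  have e : (fun t => gg 𝓛 c v t ^ 2) = fun t => ∑ i, (fun i t => ∑ j, (fun j t => c i v * c j v * (𝓛.f i v t * 𝓛.f j v t)) j t) i t := by
    funext t
    unfold gg
    rw [sq, Finset.sum_mul_sum]
    refine Finset.sum_congr rfl fun i _ => Finset.sum_congr rfl fun j _ => ?_
    ring
  rw [e, av_sum]
  refine Finset.sum_congr rfl fun i _ => ?_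
  rw [av_sum]
  exact Finset.sum_congr rfl fun j _ => av_mul _ _ _

theorem av_sq_le (v : HeightOneSpectrum (𝓞 K)) :
    |av Finset.univ (fun t => gg 𝓛 c v t ^ 2) - ∑ i, 𝓛.D i * c i v ^ 2| ≤ (Fintype.card I : ℝ) ^ 2 * 𝓛.E * (rho c v / nv v) := by
  have hq := nv_pos v
  rw [av_sq]
  have e1 : ∑ i, 𝓛.D i * c i v ^ 2 = ∑ i, ∑ j, c i v * c j v * (if i = j then 𝓛.D i else 0) := by
    refine Finset.sum_congr rfl fun i _ => ?_
    rw [Finset.sum_eq_single i]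
    · rw [if_pos rfl]; ring
    · intro j _ hj
      rw [if_neg (Ne.symm hj), mul_zero]
    · intro h; exact absurd (Finset.mem_univ i) h
  rw [e1, ← Finset.sum_sub_distrib]
  have hs : Real.sqrt (rho c v) * Real.sqrt (rho c v) = rho c v := Real.mul_self_sqrt (rho_nonneg c v)
  refine (Finset.abs_sum_le_sum_abs _ _).trans ?_
  calc ∑ i, |∑ j, c i v * c j v * av Finset.univ (fun t => 𝓛.f i v t * 𝓛.f j v t) - ∑ j, c i v * c j v * (if i = j then 𝓛.D i else 0)|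
      ≤ ∑ _i : I, ∑ _j : I, rho c v * (𝓛.E / nv v) := by
        refine Finset.sum_le_sum fun i _ => ?_
        rw [← Finset.sum_sub_distrib]
        refine (Finset.abs_sum_le_sum_abs _ _).trans (Finset.sum_le_sum fun j _ => ?_)
        rw [← mul_sub, abs_mul, abs_mul, ← hs]
        exact mul_le_mul (mul_le_mul (c_le_rho c i v) (c_le_rho c j v) (abs_nonneg _) (Real.sqrt_nonneg _)) (𝓛.cov_le i j v)
          (abs_nonneg _) (by positivity)
    _ = _ := by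
        simp only [Finset.sum_const, Finset.card_univ, nsmul_eq_mul]
        ring

theorem rho_le_V (Z : ℕ) : ∑ v ∈ SZ K Z, rho c v ≤ VV 𝓛 c Z / 𝓛.d := by
  have hd := 𝓛.d_pos
  rw [le_div_iff₀ hd, Finset.sum_mul]
  refine Finset.sum_le_sum fun v _ => ?_
  unfold rho
  rw [Finset.sum_mul]
  refine Finset.sum_le_sum fun i _ => ?_
  rw [mul_comm]
  exact mul_le_mul_of_nonneg_right (𝓛.d_le i) (sq_nonneg _)

section
variable (hc : ∀ i v, |c i v| ≤ 1)
include hc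

theorem rho_le (v : HeightOneSpectrum (𝓞 K)) : rho c v ≤ Fintype.card I := by
  unfold rho
  calc ∑ i, c i v ^ 2 ≤ ∑ _i : I, (1 : ℝ) := Finset.sum_le_sum fun i _ => by
        rw [← sq_abs]
        exact pow_le_one₀ (abs_nonneg _) (hc i v)
    _ = _ := by simp

theorem sqrt_rho_le (v : HeightOneSpectrum (𝓞 K)) : Real.sqrt (rho c v) ≤ Fintype.card I := by
  rw [Real.sqrt_le_left (by positivity)]
  refine (rho_le c hc v).trans ?_
  have h : Fintype.card I ≤ Fintype.card I ^ 2 := Nat.le_self_pow two_ne_zero _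
  exact_mod_cast h

end

theorem VV_mono_card {N Z : ℕ} (hc : ∀ i v, |c i v| ≤ 1) (h : Z ≤ N) :
    VV 𝓛 c Z ≤ (∑ i, 𝓛.D i) * (SZ K N).card := by
  have hsub : SZ K Z ⊆ SZ K N := fun v hv => mem_SZ.2 ((mem_SZ.1 hv).trans h)
  have hD : ∀ i, 0 ≤ 𝓛.D i := fun i => 𝓛.d_pos.le.trans (𝓛.d_le i)
  calc VV 𝓛 c Z ≤ ∑ v ∈ SZ K Z, ∑ i, 𝓛.D i := by
        unfold VV
        refine Finset.sum_le_sum fun v _ => Finset.sum_le_sum fun i _ => ?_
        refine mul_le_of_le_one_right (hD i) ?_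
        rw [← sq_abs]
        exact pow_le_one₀ (abs_nonneg _) (hc i v)
    _ = (∑ i, 𝓛.D i) * (SZ K Z).card := by rw [Finset.sum_const, nsmul_eq_mul, mul_comm]
    _ ≤ _ := mul_le_mul_of_nonneg_left (by exact_mod_cast Finset.card_le_card hsub) (Finset.sum_nonneg fun i _ => hD i)

/-- If the variance is large, so is `Z`. -/
theorem size_Z (N : ℕ) : ∃ V₀ : ℝ, ∀ (Z : ℕ) (c : I → HeightOneSpectrum (𝓞 K) → ℝ), (∀ i v, |c i v| ≤ 1) → V₀ ≤ VV 𝓛 c Z → N ≤ Z := by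
  refine ⟨(∑ i, 𝓛.D i) * (SZ K N).card + 1, fun Z c hc hV => ?_⟩
  by_contra hcon
  have := VV_mono_card 𝓛 c hc (not_le.1 hcon).le
  linarith

/-- The places of large norm. -/
theorem exists_F0 {δ : ℝ} (hδ : 0 < δ) : ∃ F₀ : Finset (HeightOneSpectrum (𝓞 K)),
    (∀ F : Finset (HeightOneSpectrum (𝓞 K)), Disjoint F F₀ → ∑ v ∈ F, (1 / (nv v : ℝ)) ^ 2 ≤ δ ^ 2) ∧
    ∀ v, v ∉ F₀ → 1 / (nv v : ℝ) ≤ δ := by
  have hs : Summable fun v : HeightOneSpectrum (𝓞 K) => (1 / (nv v : ℝ)) ^ 2 := by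
    refine (Pool.Agent.H921R2.TatePole.nm_summable (K := K) (x := 2) (by norm_num)).congr fun v => ?_
    have h0 : (0 : ℝ) < nv v := nv_pos v
    show (nv v : ℝ) ^ (-(2 : ℝ)) = _
    rw [Real.rpow_neg h0.le, Real.rpow_two, one_div, inv_pow]
  obtain ⟨F₀, hF⟩ := summable_iff_vanishing_norm.1 hs (δ ^ 2) (by positivity)
  have h1 : ∀ F : Finset (HeightOneSpectrum (𝓞 K)), Disjoint F F₀ → ∑ v ∈ F, (1 / (nv v : ℝ)) ^ 2 ≤ δ ^ 2 := fun F hd =>
    (le_abs_self _).trans (hF F hd).le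
  refine ⟨F₀, h1, fun v hv => ?_⟩
  have h2 := h1 {v} (Finset.disjoint_singleton_left.2 hv)
  rw [Finset.sum_singleton] at h2
  exact le_of_sq_le_sq h2 hδ.le

theorem sum_one {δ : ℝ} (hδ : 0 < δ) : ∃ V₀ : ℝ, ∀ (Z : ℕ) (c : I → HeightOneSpectrum (𝓞 K) → ℝ), (∀ i v, |c i v| ≤ 1) →
    V₀ ≤ VV 𝓛 c Z → ∑ v ∈ SZ K Z, rho c v / nv v ≤ δ * VV 𝓛 c Z := by
  classical
  have hd := 𝓛.d_pos
  obtain ⟨F₀, -, hF⟩ := exists_F0 (K := K) (δ := δ * 𝓛.d / 2) (by positivity)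
  refine ⟨F₀.card * Fintype.card I / (δ / 2), fun Z c hc hV => ?_⟩
  rw [div_le_iff₀ (by positivity)] at hV
  have h1 : ∀ v ∈ SZ K Z, rho c v / nv v ≤ (if v ∈ F₀ then (Fintype.card I : ℝ) else 0) + δ * 𝓛.d / 2 * rho c v := by
    intro v _
    have hr := rho_nonneg c v
    have hq : (1 : ℝ) ≤ nv v := by exact_mod_cast (by have := two_le_nv v; omega : 1 ≤ nv v)
    split_ifs with h
    · have := (div_le_self hr hq).trans (rho_le c hc v)
      have h2 : 0 ≤ δ * 𝓛.d / 2 * rho c v := by positivity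
      linarith
    · rw [zero_add, div_eq_mul_one_div, mul_comm]
      exact mul_le_mul_of_nonneg_right (hF v h) hr
  refine (Finset.sum_le_sum h1).trans ?_
  rw [Finset.sum_add_distrib, ← Finset.mul_sum]
  have h2 : ∑ v ∈ SZ K Z, (if v ∈ F₀ then (Fintype.card I : ℝ) else 0) ≤ F₀.card * Fintype.card I := by
    rw [← Finset.sum_filter, Finset.sum_const, nsmul_eq_mul]
    refine mul_le_mul_of_nonneg_right ?_ (by positivity)
    exact_mod_cast Finset.card_le_card fun v hv => (Finset.mem_filter.1 hv).2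
  have h3 := rho_le_V 𝓛 c Z
  rw [le_div_iff₀ hd] at h3
  have h4 : δ * 𝓛.d / 2 * ∑ v ∈ SZ K Z, rho c v = δ / 2 * ((∑ v ∈ SZ K Z, rho c v) * 𝓛.d) := by ring
  rw [h4]
  have h5 := mul_le_mul_of_nonneg_left h3 (by positivity : 0 ≤ δ / 2)
  linarith

theorem sum_two {δ : ℝ} (hδ : 0 < δ) : ∃ V₀ : ℝ, ∀ (Z : ℕ) (c : I → HeightOneSpectrum (𝓞 K) → ℝ), (∀ i v, |c i v| ≤ 1) →
    V₀ ≤ VV 𝓛 c Z → ∑ v ∈ SZ K Z, Real.sqrt (rho c v) / nv v ≤ δ * Real.sqrt (VV 𝓛 c Z) := by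
  classical
  have hd := 𝓛.d_pos
  have hsd : 0 < Real.sqrt 𝓛.d := Real.sqrt_pos.2 hd
  obtain ⟨F₀, hF, -⟩ := exists_F0 (K := K) (δ := δ * Real.sqrt 𝓛.d / 2) (by positivity)
  refine ⟨(F₀.card * Fintype.card I / (δ / 2)) ^ 2, fun Z c hc hV => ?_⟩
  have hV1 := Real.sqrt_le_sqrt hV
  rw [Real.sqrt_sq (by positivity), div_le_iff₀ (by positivity)] at hV1
  have hV0 : 0 ≤ VV 𝓛 c Z := (sq_nonneg _).trans hV
  rw [← Finset.sum_filter_add_sum_filter_not (SZ K Z) (fun v => v ∈ F₀)]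
  have h2 : ∑ v ∈ (SZ K Z).filter (fun v => v ∈ F₀), Real.sqrt (rho c v) / nv v ≤ F₀.card * Fintype.card I := by
    calc _ ≤ ∑ v ∈ (SZ K Z).filter (fun v => v ∈ F₀), (Fintype.card I : ℝ) := by
          refine Finset.sum_le_sum fun v _ => ?_
          have hq : (1 : ℝ) ≤ nv v := by exact_mod_cast (by have := two_le_nv v; omega : 1 ≤ nv v)
          exact (div_le_self (Real.sqrt_nonneg _) hq).trans (sqrt_rho_le c hc v)
      _ ≤ _ := by
          rw [Finset.sum_const, nsmul_eq_mul]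
          refine mul_le_mul_of_nonneg_right ?_ (by positivity)
          exact_mod_cast Finset.card_le_card fun v hv => (Finset.mem_filter.1 hv).2
  have h3 : ∑ v ∈ (SZ K Z).filter (fun v => ¬ v ∈ F₀), Real.sqrt (rho c v) / nv v ≤ δ / 2 * Real.sqrt (VV 𝓛 c Z) := by
    have h4 := Finset.sum_mul_sq_le_sq_mul_sq ((SZ K Z).filter (fun v => ¬ v ∈ F₀)) (fun v => Real.sqrt (rho c v)) (fun v => 1 / (nv v : ℝ))
    have h5 := hF ((SZ K Z).filter (fun v => ¬ v ∈ F₀)) (by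
      rw [Finset.disjoint_left]
      intro v hv
      exact (Finset.mem_filter.1 hv).2)
    have h6 : ∑ v ∈ (SZ K Z).filter (fun v => ¬ v ∈ F₀), Real.sqrt (rho c v) ^ 2 ≤ VV 𝓛 c Z / 𝓛.d := by
      refine le_trans ?_ (rho_le_V 𝓛 c Z)
      refine (Finset.sum_le_sum_of_subset_of_nonneg (Finset.filter_subset _ _) fun v _ _ => sq_nonneg _).trans (le_of_eq ?_)
      exact Finset.sum_congr rfl fun v _ => Real.sq_sqrt (rho_nonneg c v)
    have h7 : (∑ v ∈ (SZ K Z).filter (fun v => ¬ v ∈ F₀), Real.sqrt (rho c v) * (1 / (nv v : ℝ))) ^ 2 ≤ (δ / 2 * Real.sqrt (VV 𝓛 c Z)) ^ 2 := by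
      refine h4.trans ((mul_le_mul h6 h5 (Finset.sum_nonneg fun v _ => sq_nonneg _) (by positivity)).trans (le_of_eq ?_))
      rw [mul_pow, Real.sq_sqrt hV0, div_pow, mul_pow, Real.sq_sqrt hd.le]
      field_simp
    have h8 := le_of_sq_le_sq h7 (by positivity)
    simpa only [div_eq_mul_one_div (Real.sqrt _)] using h8
  linarith

end

end Run7.h876.SU
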