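import Pool.Agent.Run7.h9.BS.Defs

/-!
# Sato-Tate sums of the Jacobians of the monic quintics: definitions
-/

set_option autoImplicit false

namespace Run7.h876.SU

open NumberField IsDedekindDomain
open Run7.h876.MM (nv kv instFieldKv instFintypeKv SZ)

/-- The number of the solutions of `y ^ 2 = x ^ 5 + c_4 x ^ 4 + ... + c_0` in `R`. -/
noncomputable def points {R : Type} [CommRing R] (c : Fin 5 → R) : ℕ :=
  Nat.card {P : R × R // P.2 ^ 2 = P.1 ^ 5 + ∑ i, c i * P.1 ^ (i : ℕ)}

/-- The number of the solutions of `y ^ 2 = x ^ 5 + c_4 x ^ 4 + ... + c_0` in the extension of degree `2` of the finite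
field `k`. -/
noncomputable def points₂ (k : Type) [Field k] [Finite k] (c : Fin 5 → k) : ℕ :=
  haveI : Fact (ringChar k).Prime := ⟨CharP.char_is_prime k (ringChar k)⟩
  points (fun i => algebraMap k (FiniteField.Extension k (ringChar k) 2) (c i))

/-- The polynomial `x ^ 5 + c_4 x ^ 4 + ... + c_0`. -/
noncomputable def quintic {R : Type} [CommRing R] (c : Fin 5 → R) : Polynomial R :=
  Polynomial.X ^ 5 + ∑ i, Polynomial.C (c i) * Polynomial.X ^ (i : ℕ)

/-- The coefficient `a_1` of the normalised Euler factor `1 + a_1 T + a_2 T ^ 2 + a_1 T ^ 3 + T ^ 4` of the Jacobian of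
`C : y ^ 2 = x ^ 5 + c_4 x ^ 4 + ... + c_0` over the finite field `k` with `q` elements: `(#C(k) - (q + 1)) / q ^ (1 / 2)`; there is
one point at infinity. -/
noncomputable def a₁ (k : Type) [Field k] [Finite k] (c : Fin 5 → k) : ℝ :=
  (((points c : ℝ) + 1) - ((Nat.card k : ℝ) + 1)) / Real.sqrt (Nat.card k)

/-- The coefficient `a_2` of the normalised Euler factor: `((#C(k) - (q + 1)) ^ 2 + #C(k₂) - (q ^ 2 + 1)) / (2 q)`, with the
extension `k₂` of degree `2` of `k`. -/
noncomputable def a₂ (k : Type) [Field k] [Finite k] (c : Fin 5 → k) : ℝ :=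
  ((((points c : ℝ) + 1) - ((Nat.card k : ℝ) + 1)) ^ 2 + (((points₂ k c : ℝ) + 1) - ((Nat.card k : ℝ) ^ 2 + 1))) /
    (2 * Nat.card k)

/-- The class functions `a_1`, `a_2 - 1`, `a_1 ^ 2 - a_2` (up to a sign the characters of the irreducible representations of
`USp(4)` of dimension `4`, `5`, `10`) and `a_1 ^ 3 - 3 a_1` (the part without invariants and without the standard representation of
the third power). -/
noncomputable def chi (i : Fin 4) (k : Type) [Field k] [Finite k] (c : Fin 5 → k) : ℝ :=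
  ![a₁ k c, a₂ k c - 1, a₁ k c ^ 2 - a₂ k c, a₁ k c ^ 3 - 3 * a₁ k c] i

section
variable {F : Type} [Field F] [NumberField F]

/-- `v` does not divide `2` and the polynomial `x ^ 5 + c_4 x ^ 4 + ... + c_0` is separable modulo `v`, so that the curve is smooth
modulo `v`. -/
def Good (v : HeightOneSpectrum (𝓞 F)) (c : Fin 5 → 𝓞 F) : Prop :=
  (2 : 𝓞 F) ∉ v.asIdeal ∧ (quintic (fun i => (Ideal.Quotient.mk v.asIdeal (c i) : kv v))).Separable

open Classical in
/-- **The weighted sum** `∑ w_i(v) chi_i(v)` over the places `v` of good reduction with `Nv ≤ Z`. -/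
noncomputable def weylSum (w : Fin 4 → HeightOneSpectrum (𝓞 F) → ℝ) (Z : ℕ) (c : Fin 5 → 𝓞 F) : ℝ :=
  ∑ v ∈ SZ F Z, if Good v c then ∑ i, w i v * chi i (kv v) (fun i => Ideal.Quotient.mk v.asIdeal (c i)) else 0

/-- The variance `∑ (w_0(v) ^ 2 + w_1(v) ^ 2 + w_2(v) ^ 2 + 5 w_3(v) ^ 2)`, over all places with `Nv ≤ Z`. -/
noncomputable def variance (w : Fin 4 → HeightOneSpectrum (𝓞 F) → ℝ) (Z : ℕ) : ℝ :=
  ∑ v ∈ SZ F Z, (w 0 v ^ 2 + w 1 v ^ 2 + w 2 v ^ 2 + 5 * w 3 v ^ 2)

/-- The coefficients for which the quintic is separable, so that the curve is smooth. -/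
def smooth (F : Type) [Field F] [NumberField F] : Set (Fin 5 → 𝓞 F) := {c | (quintic (fun i => (c i : F))).Separable}

end

end Run7.h876.SU
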