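import Pool.Agent.Run7.h876.SU.Char

/-!
# Large values of the sums with arbitrary weights
-/

set_option autoImplicit false
set_option linter.unusedSectionVars false

namespace Run7.h876.SU

open NumberField IsDedekindDomain Finset Filter Topology MeasureTheory
open Run7.h876.MM (nv kv two_le_nv nv_pos avg norm_avg_le SZ mem_SZ card_SZ instFieldKv instFintypeKv instDecKv)
open Run7.h876.EN Run7.h876.PW Run7.h876.MN
open Run7.h9.BS (prop)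

section
variable {K : Type} [Field K] [NumberField K] {J : Type} [Fintype J] [DecidableEq J] {I : Type} [Fintype I] [DecidableEq I]
variable (𝓛 : Loc K J I)
variable {ι : Type} [Fintype ι] [DecidableEq ι] (ω : Module.Basis ι ℤ (𝓞 K)) {G : Set (J → 𝓞 K)} {Cb : ℝ}

theorem prop_le_one' (H : J → ℕ) (P : (J → 𝓞 K) → Prop) : prop ω H G P ≤ 1 := by
  classical
  unfold prop
  refine div_le_one_of_le₀ ?_ (by positivity)
  exact_mod_cast Finset.card_le_card fun c hc => by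
    obtain ⟨h1, h2, _⟩ := Finset.mem_filter.1 hc
    exact Finset.mem_filter.2 ⟨h1, h2⟩

theorem fact_pow (k : ℕ) (hk : 1 ≤ k) {x : ℝ} (hx : 0 ≤ x) :
    ((2 * k).factorial : ℝ) * (2 * (x / (2 * k)) ^ k) ≤ 2 * (2 * k * x) ^ k := by
  have hk0 : (0 : ℝ) < k := by exact_mod_cast hk
  have h1 : ((2 * k).factorial : ℝ) ≤ (2 * k : ℝ) ^ (2 * k) := by
    exact_mod_cast Nat.factorial_le_pow (2 * k)
  calc ((2 * k).factorial : ℝ) * (2 * (x / (2 * k)) ^ k) ≤ (2 * k : ℝ) ^ (2 * k) * (2 * (x / (2 * k)) ^ k) :=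
        mul_le_mul_of_nonneg_right h1 (by positivity)
    _ = 2 * (2 * k * x) ^ k := by
        rw [pow_mul, div_pow, mul_pow (2 * (k : ℝ)) x, ← pow_mul, mul_comm 2 k, pow_mul]
        field_simp

/-- The even moments. -/
theorem mom_tail (hG : Thin ω G Cb) : ∃ g T V₀ : ℝ, 0 < g ∧ 0 ≤ T ∧
    ∀ (Z : ℕ) (c : I → HeightOneSpectrum (𝓞 K) → ℝ), (∀ i v, |c i v| ≤ 1) → V₀ ≤ VV 𝓛 c Z → 1 ≤ Z ∧
      ∀ k : ℕ, 1 ≤ k → ∀ H : J → ℕ, (∀ j, Z ^ (6 * k + 1) ≤ H j) → ∀ y : ℝ, 2 ≤ y →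
      prop ω H G (fun t => y * Real.sqrt (VV 𝓛 c Z) ≤ |SS 𝓛 c Z t|) ≤
        2 * ((2 * (2 * k * (g * Real.exp 1)) ^ k + 2 ^ Fintype.card (J × ι) * (T ^ 2) ^ k) / ((y / 2) ^ 2) ^ k) := by
  have hd := 𝓛.d_pos
  have hM := 𝓛.M_nonneg
  have hE := 𝓛.E_nonneg
  obtain ⟨n, hn⟩ : ∃ n : ℝ, n = Fintype.card I := ⟨_, rfl⟩
  have hn0 : 0 ≤ n := by rw [hn]; positivity
  obtain ⟨A, hA⟩ : ∃ A, A = 2 * (n * 𝓛.M) := ⟨_, rfl⟩
  have hA0 : 0 ≤ A := by rw [hA]; positivity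
  obtain ⟨g, hg⟩ : ∃ g, g = A ^ 2 / 𝓛.d + 1 := ⟨_, rfl⟩
  have hg0 : 0 < g := by rw [hg]; positivity
  obtain ⟨T, hT, hcard⟩ := card_SZ K (θ := 1) one_pos
  obtain ⟨N, hN⟩ := exists_nat_ge Cb
  obtain ⟨V₁, hV₁⟩ := size_Z 𝓛 (N + 1)
  obtain ⟨B₁, hB₁⟩ : ∃ B₁, B₁ = n * 𝓛.E + 1 := ⟨_, rfl⟩
  have hB₁0 : 0 < B₁ := by rw [hB₁]; positivity
  obtain ⟨V₃, hV₃⟩ := sum_two 𝓛 (δ := 1 / B₁) (by positivity)
  obtain ⟨R, hR⟩ : ∃ R, R = A * n + 1 := ⟨_, rfl⟩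
  have hR1 : 1 ≤ R := by
    rw [hR]
    have : 0 ≤ A * n := by positivity
    linarith
  refine ⟨g, T, max V₁ (max V₃ (R ^ 2)), hg0, hT, fun Z c hc hV => ?_⟩
  have g1 : V₁ ≤ VV 𝓛 c Z := (le_max_left _ _).trans hV
  have g3 : V₃ ≤ VV 𝓛 c Z := ((le_max_left _ _).trans (le_max_right _ _)).trans hV
  have g4 : R ^ 2 ≤ VV 𝓛 c Z := ((le_max_right _ _).trans (le_max_right _ _)).trans hV
  have hZN := hV₁ Z c hc g1
  have hZ1 : 1 ≤ Z := by omega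
  refine ⟨hZ1, fun k hk1 H hH y hy => ?_⟩
  have hk0 : (0 : ℝ) < k := by exact_mod_cast hk1
  obtain ⟨V, hVd⟩ : ∃ V, V = VV 𝓛 c Z := ⟨_, rfl⟩
  have hsum2 := hV₃ Z c hc g3
  rw [← hVd] at g4 hsum2 ⊢
  have hVpos : 0 < V := lt_of_lt_of_le (by positivity) g4
  obtain ⟨W, hW⟩ : ∃ W, W = Real.sqrt V := ⟨_, rfl⟩
  have hW2 : W ^ 2 = V := by rw [hW]; exact Real.sq_sqrt hVpos.le
  have hRW : R ≤ W := by
    rw [hW]
    exact Real.le_sqrt_of_sq_le g4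
  have hW0 : 0 < W := by linarith
  rw [← hW] at hsum2 ⊢
  obtain ⟨s, hs⟩ : ∃ s, s = 1 / W := ⟨_, rfl⟩
  obtain ⟨X, hX⟩ : ∃ X, X = XX 𝓛 c s := ⟨_, rfl⟩
  obtain ⟨b, hb⟩ : ∃ b : HeightOneSpectrum (𝓞 K) → ℝ, b = fun v => A / W * Real.sqrt (rho c v) := ⟨_, rfl⟩
  have hXb : ∀ v t, |X v t| ≤ b v := fun v t => by
    rw [hX, hb]
    refine (XX_le 𝓛 c s v t).trans (le_of_eq ?_)
    rw [hs, abs_div, abs_of_pos hW0, abs_one, hA, hn]
    ring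
  have hbn : ∀ v, b v ≤ A / W * n := fun v => by
    rw [hb, hn]
    exact mul_le_mul_of_nonneg_left (sqrt_rho_le c hc v) (by positivity)
  have hAW : A / W * n ≤ 1 := by
    rw [div_mul_eq_mul_div, div_le_one hW0]
    linarith
  have hb1 : ∀ v, b v ≤ 1 := fun v => (hbn v).trans hAW
  have hX0 : ∀ v, av Finset.univ (X v) = 0 := fun v => by rw [hX]; exact XX_mean 𝓛 c s v
  have hbsq : ∑ v ∈ SZ K Z, b v ^ 2 ≤ g := by
    have e : ∀ v, b v ^ 2 = A ^ 2 / V * rho c v := fun v => by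
      rw [hb, ← hW2]
      simp only
      rw [mul_pow, Real.sq_sqrt (rho_nonneg c v), div_pow]
    simp only [e]
    rw [← Finset.mul_sum]
    have h1 := rho_le_V 𝓛 c Z
    rw [← hVd] at h1
    refine (mul_le_mul_of_nonneg_left h1 (by positivity)).trans ?_
    rw [hg]
    have : A ^ 2 / V * (V / 𝓛.d) = A ^ 2 / 𝓛.d := by field_simp
    rw [this]
    linarith
  -- the moments
  have hZ0 : (1 : ℝ) ≤ Z := by exact_mod_cast hZ1
  have hZpos : (0 : ℝ) < Z := by linarith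
  have h1 := even_model X b (SZ K Z) (fun v _ => hXb v) hX0 hg0 hbsq k hk1
  have h1' := h1.trans (fact_pow k hk1 (x := g * Real.exp 1) (by positivity))
  have hM' : Z ^ (2 * k) ≤ 2 * Z ^ (6 * k + 1) + 1 := by
    have : Z ^ (2 * k) ≤ Z ^ (6 * k + 1) := Nat.pow_le_pow_right hZ1 (by omega)
    omega
  have h2 := mom_close ω X (SZ K Z) zero_le_one (fun v t => (hXb v t).trans (hb1 v)) (N := 2 * k) (M := Z ^ (6 * k + 1)) hZ1
    (fun v hv => mem_SZ.1 hv) H hH hM' (le_refl (2 * k))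
  rw [mul_one] at h2
  have h3 : ((SZ K Z).card : ℝ) ^ (2 * k) * (2 ^ Fintype.card (J × ι) * ((Z : ℝ) ^ (2 * k) / (2 * ((Z ^ (6 * k + 1) : ℕ) : ℝ) + 1))) ≤
      2 ^ Fintype.card (J × ι) * (T ^ 2) ^ k := by
    have hcZ := hcard Z hZ1
    have e : (Z : ℝ) ^ ((1 : ℝ) + 1) = (Z : ℝ) ^ 2 := by
      rw [← Real.rpow_natCast]; norm_num
    rw [e] at hcZ
    have h4 : ((SZ K Z).card : ℝ) ^ (2 * k) ≤ (T ^ 2) ^ k * (Z : ℝ) ^ (4 * k) := by
      refine (pow_le_pow_left₀ (by positivity) hcZ (2 * k)).trans (le_of_eq ?_)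
      rw [mul_pow, pow_mul T 2 k, ← pow_mul (Z : ℝ) 2]
      congr 2
      ring
    have h5 : (Z : ℝ) ^ (4 * k) * ((Z : ℝ) ^ (2 * k) / (2 * ((Z ^ (6 * k + 1) : ℕ) : ℝ) + 1)) ≤ 1 := by
      rw [← mul_div_assoc, ← pow_add, div_le_one (by positivity)]
      have : (Z : ℝ) ^ (4 * k + 2 * k) ≤ (Z : ℝ) ^ (6 * k + 1) := pow_le_pow_right₀ hZ0 (by omega)
      push_cast
      have h6 : 0 ≤ (Z : ℝ) ^ (6 * k + 1) := by positivity
      linarith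
    obtain ⟨q, hq⟩ : ∃ q : ℝ, q = (Z : ℝ) ^ (2 * k) / (2 * ((Z ^ (6 * k + 1) : ℕ) : ℝ) + 1) := ⟨_, rfl⟩
    have hq0 : 0 ≤ q := by rw [hq]; positivity
    rw [← hq] at h5 ⊢
    calc ((SZ K Z).card : ℝ) ^ (2 * k) * (2 ^ Fintype.card (J × ι) * q)
        ≤ ((T ^ 2) ^ k * (Z : ℝ) ^ (4 * k)) * (2 ^ Fintype.card (J × ι) * q) := mul_le_mul_of_nonneg_right h4 (by positivity)
      _ = 2 ^ Fintype.card (J × ι) * (T ^ 2) ^ k * ((Z : ℝ) ^ (4 * k) * q) := by ring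
      _ ≤ 2 ^ Fintype.card (J × ι) * (T ^ 2) ^ k * 1 := mul_le_mul_of_nonneg_left h5 (by positivity)
      _ = _ := mul_one _
  have h4 : av (box ι H) (fun c => SB X (SZ K Z) (tuple ω c) ^ (2 * k)) ≤
      2 * (2 * k * (g * Real.exp 1)) ^ k + 2 ^ Fintype.card (J × ι) * (T ^ 2) ^ k := by
    have h5 := (abs_le.1 (h2.trans h3)).2
    linarith
  -- the mean
  obtain ⟨m, hm⟩ : ∃ m : ℝ, m = s * ∑ v ∈ SZ K Z, av Finset.univ (gg 𝓛 c v) := ⟨_, rfl⟩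
  have hm1 : |m| ≤ 1 := by
    rw [hm, abs_mul, hs, abs_div, abs_of_pos hW0, abs_one]
    have h5 : |∑ v ∈ SZ K Z, av Finset.univ (gg 𝓛 c v)| ≤ n * 𝓛.E * (1 / B₁ * W) := by
      refine (Finset.abs_sum_le_sum_abs _ _).trans ?_
      calc _ ≤ ∑ v ∈ SZ K Z, n * 𝓛.E * (Real.sqrt (rho c v) / nv v) := by
            rw [hn]
            exact Finset.sum_le_sum fun v _ => av_gg_le 𝓛 c v
        _ = n * 𝓛.E * ∑ v ∈ SZ K Z, Real.sqrt (rho c v) / nv v := by rw [Finset.mul_sum]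
        _ ≤ _ := mul_le_mul_of_nonneg_left hsum2 (by positivity)
    have h6 : 1 / W * |∑ v ∈ SZ K Z, av Finset.univ (gg 𝓛 c v)| ≤ 1 / W * (n * 𝓛.E * (1 / B₁ * W)) :=
      mul_le_mul_of_nonneg_left h5 (by positivity)
    refine h6.trans ?_
    have h7 : 1 / W * (n * 𝓛.E * (1 / B₁ * W)) = n * 𝓛.E / B₁ := by field_simp
    rw [h7, div_le_one hB₁0]
    linarith
  have hy0 : 0 < (y / 2) ^ (2 * k) := by positivity
  have hCbM : 2 * Cb ≤ 2 * ((Z ^ (6 * k + 1) : ℕ) : ℝ) + 1 := by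
    have : Z ≤ Z ^ (6 * k + 1) := Nat.le_self_pow (by omega) Z
    have h5 : Cb ≤ ((Z ^ (6 * k + 1) : ℕ) : ℝ) := hN.trans (by exact_mod_cast (by omega : N ≤ Z).trans this)
    linarith
  have h5 := prop_le ω hG H (Z ^ (6 * k + 1)) hH hCbM (fun t => y * W ≤ |SS 𝓛 c Z t|)
    (fun c => SB X (SZ K Z) (tuple ω c) ^ (2 * k)) (fun c => Even.pow_nonneg (even_two_mul k) _) hy0 (fun x hx => by
      have e1 : SS 𝓛 c Z (tuple ω x) = W * (SB X (SZ K Z) (tuple ω x) + m) := by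
        rw [hm, hX, ← sum_XX, hs]
        field_simp
      have hx' : y * W ≤ |SS 𝓛 c Z (tuple ω x)| := hx
      rw [e1, abs_mul, abs_of_pos hW0, mul_comm] at hx'
      have h6 := le_of_mul_le_mul_left hx' hW0
      have h7 := h6.trans (abs_add_le _ _)
      have h8 : y / 2 ≤ |SB X (SZ K Z) (tuple ω x)| := by linarith
      have h9 := pow_le_pow_left₀ (by linarith : 0 ≤ y / 2) h8 (2 * k)
      rw [Even.pow_abs (even_two_mul k)] at h9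
      exact h9)
  refine h5.trans ?_
  refine mul_le_mul_of_nonneg_left ?_ (by norm_num)
  have e9 : ((y / 2) ^ 2) ^ k = (y / 2) ^ (2 * k) := (pow_mul _ 2 k).symm
  rw [e9]
  exact div_le_div_of_nonneg_right h4 hy0.le

/-- **Large values.** -/
theorem tail (hG : Thin ω G Cb) : ∃ A : ℝ, 0 < A ∧ ∃ V₀ : ℝ,
    ∀ (Z : ℕ) (c : I → HeightOneSpectrum (𝓞 K) → ℝ), (∀ i v, |c i v| ≤ 1) → V₀ ≤ VV 𝓛 c Z → ∀ y : ℝ, 0 ≤ y →
      ∀ H : J → ℕ, (∀ j, (Z : ℝ) ^ (A * (1 + y ^ 2)) ≤ H j) →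
      prop ω H G (fun t => y * Real.sqrt (VV 𝓛 c Z) ≤ |SS 𝓛 c Z t|) ≤ A * Real.exp (-(y ^ 2 / A)) := by
  obtain ⟨g, T, V₀, hg, hT, h⟩ := mom_tail 𝓛 ω hG
  have he : 0 < Real.exp 1 := Real.exp_pos 1
  obtain ⟨lam, hl⟩ : ∃ l, l = 8 * g * Real.exp 1 ^ 2 := ⟨_, rfl⟩
  have hl0 : 0 < lam := by rw [hl]; positivity
  obtain ⟨Y, hY⟩ : ∃ Y, Y = 4 * Real.exp 1 * T ^ 2 + lam + 4 := ⟨_, rfl⟩
  have hY0 : 0 ≤ Y := by rw [hY]; positivity
  obtain ⟨n, hn⟩ : ∃ n, n = Fintype.card (J × ι) := ⟨_, rfl⟩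
  obtain ⟨A, hA⟩ : ∃ A, A = 6 / lam + 1 + Real.exp Y + lam + (4 + 2 * 2 ^ n) * Real.exp 1 := ⟨_, rfl⟩
  have h6l : 0 < 6 / lam := by positivity
  have hEY : 0 < Real.exp Y := Real.exp_pos Y
  have h2n : (0 : ℝ) < (4 + 2 * 2 ^ n) * Real.exp 1 := by positivity
  have hA1 : 1 ≤ A := by rw [hA]; linarith
  have hA0 : 0 < A := by linarith
  have hAl : lam ≤ A := by rw [hA]; linarith
  have hAY : Real.exp Y ≤ A := by rw [hA]; linarith
  have hAn : (4 + 2 * 2 ^ n) * Real.exp 1 ≤ A := by rw [hA]; linarith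
  have hA6 : 6 / lam ≤ A := by rw [hA]; linarith
  refine ⟨A, hA0, V₀, fun Z c hc hV y hy H hH => ?_⟩
  obtain ⟨hZ1, h'⟩ := h Z c hc hV
  rcases lt_or_ge (y ^ 2) Y with hyY | hyY
  · refine (prop_le_one' ω H _).trans ?_
    have h1 : y ^ 2 / A ≤ Y := (div_le_self (sq_nonneg y) hA1).trans hyY.le
    have h2 : Real.exp (-Y) ≤ Real.exp (-(y ^ 2 / A)) := Real.exp_le_exp.2 (by linarith)
    calc (1 : ℝ) = Real.exp Y * Real.exp (-Y) := by rw [← Real.exp_add, add_neg_cancel, Real.exp_zero]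
      _ ≤ A * Real.exp (-(y ^ 2 / A)) := mul_le_mul hAY h2 (Real.exp_pos _).le hA0.le
  · have hYT : 4 * Real.exp 1 * T ^ 2 ≤ y ^ 2 := by
      rw [hY] at hyY; linarith
    have hYl : lam ≤ y ^ 2 := by
      have : 0 ≤ 4 * Real.exp 1 * T ^ 2 := by positivity
      rw [hY] at hyY; linarith
    have hY4 : 4 ≤ y ^ 2 := by
      have : 0 ≤ 4 * Real.exp 1 * T ^ 2 := by positivity
      rw [hY] at hyY; linarith
    have hy2 : 2 ≤ y := by nlinarith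
    have hypos : 0 < y ^ 2 := by positivity
    obtain ⟨k, hk⟩ : ∃ k, k = ⌊y ^ 2 / lam⌋₊ := ⟨_, rfl⟩
    have hk1 : 1 ≤ k := by
      rw [hk]
      exact Nat.le_floor (by rw [Nat.cast_one, one_le_div hl0]; exact hYl)
    have hk2 : (k : ℝ) ≤ y ^ 2 / lam := by rw [hk]; exact Nat.floor_le (by positivity)
    have hk3 : y ^ 2 / lam < k + 1 := by rw [hk]; exact Nat.lt_floor_add_one _
    have hZr : (1 : ℝ) ≤ Z := by exact_mod_cast hZ1
    have hH' : ∀ j, Z ^ (6 * k + 1) ≤ H j := by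
      intro j
      have h1 : (Z : ℝ) ^ ((6 * k + 1 : ℕ) : ℝ) ≤ (Z : ℝ) ^ (A * (1 + y ^ 2)) := by
        refine Real.rpow_le_rpow_of_exponent_le hZr ?_
        push_cast
        have h2 : 6 * (k : ℝ) ≤ 6 / lam * y ^ 2 := by
          calc 6 * (k : ℝ) ≤ 6 * (y ^ 2 / lam) := by linarith
            _ = _ := by ring
        have h3 : 6 / lam * y ^ 2 ≤ A * y ^ 2 := mul_le_mul_of_nonneg_right hA6 hypos.le
        nlinarith
      rw [Real.rpow_natCast] at h1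
      exact_mod_cast h1.trans (hH j)
    have h1 := h' k hk1 H hH' y hy2
    refine h1.trans ?_
    rw [← hn]
    have hyk : 0 < ((y / 2) ^ 2) ^ k := by positivity
    have e1 : (2 * (k : ℝ) * (g * Real.exp 1)) ^ k ≤ Real.exp (-1) ^ k * ((y / 2) ^ 2) ^ k := by
      rw [← mul_pow]
      refine pow_le_pow_left₀ (by positivity) ?_ k
      rw [Real.exp_neg]
      have h2 : (k : ℝ) * lam ≤ y ^ 2 := by rwa [le_div_iff₀ hl0] at hk2
      rw [hl] at h2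
      rw [← div_eq_inv_mul, le_div_iff₀ he]
      nlinarith
    have e2 : (T ^ 2) ^ k ≤ Real.exp (-1) ^ k * ((y / 2) ^ 2) ^ k := by
      rw [← mul_pow]
      refine pow_le_pow_left₀ (by positivity) ?_ k
      rw [Real.exp_neg, ← div_eq_inv_mul, le_div_iff₀ he]
      nlinarith
    have e3 : Real.exp (-1) ^ k ≤ Real.exp 1 * Real.exp (-(y ^ 2 / lam)) := by
      rw [← Real.exp_nat_mul, ← Real.exp_add]
      refine Real.exp_le_exp.2 ?_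
      linarith
    have e4 : Real.exp (-(y ^ 2 / lam)) ≤ Real.exp (-(y ^ 2 / A)) := by
      refine Real.exp_le_exp.2 ?_
      have := div_le_div_of_nonneg_left hypos.le hl0 hAl
      linarith
    calc 2 * ((2 * (2 * (k : ℝ) * (g * Real.exp 1)) ^ k + 2 ^ n * (T ^ 2) ^ k) / ((y / 2) ^ 2) ^ k)
        ≤ 2 * ((2 * (Real.exp (-1) ^ k * ((y / 2) ^ 2) ^ k) + 2 ^ n * (Real.exp (-1) ^ k * ((y / 2) ^ 2) ^ k)) / ((y / 2) ^ 2) ^ k) := by
          gcongr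
      _ = (4 + 2 * 2 ^ n) * Real.exp (-1) ^ k := by
          field_simp
          ring
      _ ≤ (4 + 2 * 2 ^ n) * (Real.exp 1 * Real.exp (-(y ^ 2 / A))) :=
          mul_le_mul_of_nonneg_left (e3.trans (mul_le_mul_of_nonneg_left e4 he.le)) (by positivity)
      _ = (4 + 2 * 2 ^ n) * Real.exp 1 * Real.exp (-(y ^ 2 / A)) := by ring
      _ ≤ _ := mul_le_mul_of_nonneg_right hAn (Real.exp_pos _).le

end

end Run7.h876.SU
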