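import Pool.Agent.Run7.h9.BS.Defs

/-!
# Kloosterman sums: definitions
-/

set_option autoImplicit false

namespace Run7.h876.SU

open Classical in
/-- The Kloosterman sum `∑_(x ≠ 0) ψ(c x + 1/x)` of the finite field `k` for the additive character `ψ`. -/
noncomputable def kloosterman {k : Type} [Field k] [Fintype k] (ψ : AddChar k ℂ) (c : k) : ℂ :=
  ∑ x : k, if x = 0 then 0 else ψ (c * x + x⁻¹)

/-- The value `U_n(cos θ) = sin ((n + 1) θ) / sin θ` of the Chebyshev polynomial `U_n`, where `Kl(c) = 2 √q cos θ`. -/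
noncomputable def klChar (n : ℤ) {k : Type} [Field k] [Fintype k] (ψ : AddChar k ℂ) (c : k) : ℝ :=
  (Polynomial.Chebyshev.U ℝ n).eval ((kloosterman ψ c).re / (2 * Real.sqrt (Fintype.card k)))

end Run7.h876.SU
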