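import Pool.Agent.Run7.h876.SU.Loc3
import Pool.Agent.Run7.h876.SU.Tail
import Pool.Agent.Run7.h876.SU.KlDefs
import Pool.Agent.H498R2.KlWeil

/-!
# Weighted sums of Kloosterman sums
-/

set_option autoImplicit false
set_option linter.unusedSectionVars false

namespace Run7.h876.SU

open NumberField IsDedekindDomain Finset
open Run7.h876.MM (nv kv two_le_nv nv_pos avg norm_avg_le SZ mem_SZ card_SZ card_kv ring_char_two card_iota_pos instFieldKv instFintypeKv instDecKv)
open Run7.h876.EN Run7.h876.PW Run7.h876.MN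
open Run7.h9.BS (prop Phi)
open scoped ComplexConjugate

section
variable {k : Type} [Field k] [Fintype k] (ψ : AddChar k ℂ)

theorem conj_kl (c : k) : conj (kloosterman ψ c) = kloosterman ψ c := by
  classical
  unfold kloosterman
  rw [map_sum]
  refine Fintype.sum_equiv (Equiv.neg k) _ _ fun x => ?_
  rw [Equiv.neg_apply]
  by_cases hx : x = 0
  · simp [hx]
  · rw [if_neg hx, if_neg (neg_ne_zero.2 hx), ← AddChar.map_neg_eq_conj]
    congr 1
    rw [inv_neg]
    ring

theorem kl_re (c : k) : ((kloosterman ψ c).re : ℂ) = kloosterman ψ c := Complex.conj_eq_iff_re.1 (conj_kl ψ c)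

variable {ψ}

theorem sum_nonzero (hψ : ψ.IsPrimitive) (d : k) :
    ∑ x : k, (open Classical in if x = 0 then (0 : ℂ) else ψ (x⁻¹ * d)) = (open Classical in if d = 0 then (Fintype.card k : ℂ) else 0) - 1 := by
  classical
  have h1 := AddChar.sum_mulShift d hψ
  have h2 : ∑ x : k, (if x = 0 then (0 : ℂ) else ψ (x⁻¹ * d)) = ∑ x : k, (if x = 0 then (0 : ℂ) else ψ (x * d)) := by
    refine Fintype.sum_bijective (fun x : k => x⁻¹) inv_involutive.bijective _ _ fun x => ?_
    by_cases hx : x = 0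
    · simp [hx]
    · rw [if_neg hx, if_neg (inv_ne_zero hx)]
  have h3 : ∑ x : k, (if x = 0 then (0 : ℂ) else ψ (x * d)) = ∑ x : k, ψ (x * d) - 1 := by
    rw [eq_sub_iff_add_eq, ← Finset.sum_erase_add _ _ (Finset.mem_univ (0 : k)), ← Finset.sum_erase_add _ (fun x : k => ψ (x * d)) (Finset.mem_univ (0 : k))]
    rw [if_pos rfl, add_zero, zero_mul, AddChar.map_zero_eq_one]
    congr 1
    exact Finset.sum_congr rfl fun x hx => if_neg (Finset.ne_of_mem_erase hx)
  rw [h2, h3, h1]
  push_cast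
  rfl

theorem kl_zero (hψ : ψ.IsPrimitive) : kloosterman ψ 0 = -1 := by
  classical
  have h := sum_nonzero hψ (1 : k)
  rw [if_neg one_ne_zero, zero_sub] at h
  unfold kloosterman
  rw [← h]
  refine Finset.sum_congr rfl fun x _ => ?_
  rw [zero_mul, zero_add, mul_one]

/-- The first moment. -/
theorem kl_first (hψ : ψ.IsPrimitive) {b : k} (hb : b ≠ 0) : ∑ t : k, kloosterman ψ (b * t) = 0 := by
  classical
  unfold kloosterman
  rw [Finset.sum_comm]
  refine Finset.sum_eq_zero fun x _ => ?_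
  by_cases hx : x = 0
  · simp [hx]
  · simp only [if_neg hx]
    have e : ∀ t, ψ (b * t * x + x⁻¹) = ψ x⁻¹ * ψ (t * (b * x)) := fun t => by
      rw [← AddChar.map_add_eq_mul]
      congr 1
      ring
    simp only [e]
    rw [← Finset.mul_sum, AddChar.sum_mulShift _ hψ, if_neg (mul_ne_zero hb hx)]
    simp

/-- The second moments. -/
theorem kl_second (hψ : ψ.IsPrimitive) {b b' : k} (hb : b ≠ 0) (hb' : b' ≠ 0) :
    ∑ t : k, kloosterman ψ (b * t) * kloosterman ψ (b' * t) =
      Fintype.card k * ((open Classical in if b = b' then (Fintype.card k : ℂ) else 0) - 1) := by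
  classical
  have e0 : ∀ t, kloosterman ψ (b * t) * kloosterman ψ (b' * t) = kloosterman ψ (b * t) * conj (kloosterman ψ (b' * t)) := fun t => by
    rw [conj_kl]
  simp only [e0]
  have e1 : ∀ t, kloosterman ψ (b * t) * conj (kloosterman ψ (b' * t)) = ∑ x : k, ∑ y : k,
      (if x = 0 then (0 : ℂ) else if y = 0 then 0 else ψ (x⁻¹ - y⁻¹) * ψ (t * (b * x - b' * y))) := by
    intro t
    unfold kloosterman
    rw [map_sum, Finset.sum_mul_sum]
    refine Finset.sum_congr rfl fun x _ => Finset.sum_congr rfl fun y _ => ?_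
    by_cases hx : x = 0
    · simp [hx]
    · by_cases hy : y = 0
      · simp [hy]
      · rw [if_neg hx, if_neg hy, if_neg hx, if_neg hy, ← AddChar.map_neg_eq_conj, ← AddChar.map_add_eq_mul, ← AddChar.map_add_eq_mul]
        congr 1
        ring
  simp only [e1]
  rw [Finset.sum_comm]
  have e2 : ∀ x : k, ∑ t : k, ∑ y : k,
      (if x = 0 then (0 : ℂ) else if y = 0 then 0 else ψ (x⁻¹ - y⁻¹) * ψ (t * (b * x - b' * y))) =
      Fintype.card k * (if x = 0 then (0 : ℂ) else ψ (x⁻¹ * (1 - b' / b))) := by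
    intro x
    by_cases hx : x = 0
    · simp [hx]
    · simp only [if_neg hx]
      rw [Finset.sum_comm, Finset.sum_eq_single (b * x / b')]
      · have hy : b * x / b' ≠ 0 := div_ne_zero (mul_ne_zero hb hx) hb'
        simp only [if_neg hy]
        have e5 : x⁻¹ - (b * x / b')⁻¹ = x⁻¹ * (1 - b' / b) := by
          rw [inv_div]
          field_simp
        have e6 : b * x - b' * (b * x / b') = 0 := by
          field_simp
          ring
        rw [← Finset.mul_sum, AddChar.sum_mulShift _ hψ, if_pos e6, mul_comm, e5]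
      · intro y _ hy
        by_cases hy0 : y = 0
        · simp [hy0]
        · simp only [if_neg hy0]
          rw [← Finset.mul_sum, AddChar.sum_mulShift _ hψ, if_neg, Nat.cast_zero, mul_zero]
          intro h
          apply hy
          rw [eq_div_iff hb', mul_comm y]
          exact (sub_eq_zero.1 h).symm
      · intro h; exact absurd (Finset.mem_univ _) h
  rw [Finset.sum_congr rfl fun x _ => e2 x, ← Finset.mul_sum]
  have h3 := sum_nonzero hψ (1 - b' / b)
  rw [h3]
  congr 2
  by_cases h : b = b'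
  · rw [if_pos h, if_pos]
    rw [h, div_self hb', sub_self]
  · rw [if_neg h, if_neg]
    intro h0
    apply h
    rw [sub_eq_zero, eq_comm, div_eq_one_iff_eq hb] at h0
    exact h0.symm

theorem kl_le (hk : ringChar k ≠ 2) (hψ : ψ.IsPrimitive) (c : k) : |(kloosterman ψ c).re / Real.sqrt (Fintype.card k)| ≤ 2 := by
  classical
  have hq : (1 : ℝ) ≤ Real.sqrt (Fintype.card k) := by
    rw [Real.one_le_sqrt]
    exact_mod_cast Fintype.card_pos
  rw [abs_div, abs_of_pos (by linarith : (0 : ℝ) < Real.sqrt (Fintype.card k)), div_le_iff₀ (by linarith)]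
  refine (Complex.abs_re_le_norm _).trans ?_
  by_cases hc : c = 0
  · rw [hc, kl_zero hψ, norm_neg, norm_one]
    linarith
  · have h := Pool.Agent.H498R2.Kl.kloosterman_le hk hψ hc (one_ne_zero (α := k))
    refine le_trans (le_of_eq ?_) h
    unfold kloosterman
    congr 1
    refine Finset.sum_congr rfl fun x _ => ?_
    rw [one_mul]

end

section
variable {F : Type} [Field F] [NumberField F] {r : ℕ} (ψ : ∀ v : HeightOneSpectrum (𝓞 F), AddChar (kv v) ℂ) (b : Fin r → 𝓞 F)

open Classical in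
/-- the local functions -/
noncomputable def kf (i : Fin r) (v : HeightOneSpectrum (𝓞 F)) (t : Unit → kv v) : ℝ :=
  if ringChar (kv v) ≠ 2 then (kloosterman (ψ v) (Ideal.Quotient.mk v.asIdeal (b i) * t ())).re / Real.sqrt (nv v) else 0

theorem sum_unit {k : Type} [Fintype k] [DecidableEq k] (g : k → ℝ) : av (Finset.univ : Finset (Unit → k)) (fun t => g (t ())) =
    (∑ s, g s) / Fintype.card k := by
  unfold av
  rw [Finset.card_univ, Fintype.card_fun, Fintype.card_unit, pow_one]
  congr 1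
  exact Fintype.sum_equiv (Equiv.funUnique Unit k) _ _ fun t => rfl

theorem exists_kl (hψ : ∀ v, (ψ v).IsPrimitive) (hb : Function.Injective b) (hb0 : ∀ i, b i ≠ 0) :
    ∃ 𝓛 : Loc F Unit (Fin r), 𝓛.f = kf ψ b ∧ 𝓛.D = fun _ => 1 := by
  classical
  obtain ⟨N, hN⟩ : ∃ N : 𝓞 F, N = 2 * (∏ i, b i) * ∏ p ∈ (Finset.univ : Finset (Fin r × Fin r)).filter (fun p => p.1 ≠ p.2), (b p.1 - b p.2) :=
    ⟨_, rfl⟩
  have hN0 : N ≠ 0 := by
    rw [hN]
    refine mul_ne_zero (mul_ne_zero two_ne_zero (Finset.prod_ne_zero_iff.2 fun i _ => hb0 i)) (Finset.prod_ne_zero_iff.2 fun p hp => ?_)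
    exact sub_ne_zero.2 fun h => (Finset.mem_filter.1 hp).2 (hb h)
  have hfin : {v : HeightOneSpectrum (𝓞 F) | N ∈ v.asIdeal}.Finite := by
    have h1 := Ideal.finite_factors (R := 𝓞 F) (I := Ideal.span {N}) (by
      rw [Ne, Ideal.zero_eq_bot, Ideal.span_singleton_eq_bot]
      exact hN0)
    refine h1.subset fun v hv => ?_
    show v.asIdeal ∣ Ideal.span {N}
    rw [Ideal.dvd_span_singleton]
    exact hv
  have hgood : ∀ v : HeightOneSpectrum (𝓞 F), N ∉ v.asIdeal → ringChar (kv v) ≠ 2 ∧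
      (∀ i, (Ideal.Quotient.mk v.asIdeal (b i) : kv v) ≠ 0) ∧
      ∀ i j, i ≠ j → (Ideal.Quotient.mk v.asIdeal (b i) : kv v) ≠ Ideal.Quotient.mk v.asIdeal (b j) := by
    intro v hv
    have hd : ∀ x : 𝓞 F, x ∣ N → x ∉ v.asIdeal := fun x hx hxv => by
      obtain ⟨y, hy⟩ := hx
      apply hv
      rw [hy]
      exact v.asIdeal.mul_mem_right y hxv
    refine ⟨fun h => ?_, fun i h => ?_, fun i j hij h => ?_⟩
    · refine hd 2 ?_ ?_
      · rw [hN, mul_assoc]
        exact dvd_mul_right _ _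
      · rw [← Ideal.Quotient.eq_zero_iff_mem, map_ofNat]
        exact ring_char_two h
    · refine hd (b i) ?_ (Ideal.Quotient.eq_zero_iff_mem.1 h)
      rw [hN]
      exact Dvd.dvd.mul_right (Dvd.dvd.mul_left (Finset.dvd_prod_of_mem _ (Finset.mem_univ i)) _) _
    · refine hd (b i - b j) ?_ (Ideal.Quotient.eq.1 h)
      rw [hN]
      exact Dvd.dvd.mul_left (Finset.dvd_prod_of_mem (fun p : Fin r × Fin r => b p.1 - b p.2) (Finset.mem_filter.2 ⟨Finset.mem_univ (i, j), hij⟩)) _
  refine exists_loc (kf ψ b) (fun _ => 1) (M := 2) (d := 1) (E₀ := 1) one_pos (fun _ => le_rfl) (by norm_num)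
    zero_le_one (fun i v t => ?_) hfin (fun i v hv => ?_) (fun i j v hv => ?_)
  · unfold kf
    split_ifs with h
    · have := kl_le h (hψ v) (Ideal.Quotient.mk v.asIdeal (b i) * t ())
      rw [card_kv] at this
      exact this
    · rw [abs_zero]; norm_num
  · obtain ⟨h2, h3, -⟩ := hgood v hv
    have hq := nv_pos v
    obtain ⟨g, hg⟩ : ∃ g : kv v → ℝ, g = fun s => (kloosterman (ψ v) (Ideal.Quotient.mk v.asIdeal (b i) * s)).re / Real.sqrt (nv v) := ⟨_, rfl⟩
    have e : kf ψ b i v = fun t => g (t ()) := by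
      funext t
      unfold kf
      rw [if_pos h2, hg]
    rw [e, sum_unit g, hg, ← Finset.sum_div, ← Complex.re_sum, kl_first (hψ v) (h3 i), Complex.zero_re, zero_div, zero_div, abs_zero]
    positivity
  · obtain ⟨h2, h3, h4⟩ := hgood v hv
    have hq := nv_pos v
    have hsq : Real.sqrt (nv v) * Real.sqrt (nv v) = nv v := Real.mul_self_sqrt hq.le
    obtain ⟨g, hg⟩ : ∃ g : kv v → ℝ, g = fun s => (kloosterman (ψ v) (Ideal.Quotient.mk v.asIdeal (b i) * s) *
        kloosterman (ψ v) (Ideal.Quotient.mk v.asIdeal (b j) * s)).re / nv v := ⟨_, rfl⟩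
    have e : (fun t => kf ψ b i v t * kf ψ b j v t) = fun t => g (t ()) := by
      funext t
      unfold kf
      rw [if_pos h2, if_pos h2, div_mul_div_comm, hsq, hg]
      simp only
      congr 1
      rw [← kl_re (ψ v) (Ideal.Quotient.mk v.asIdeal (b i) * t ()), ← kl_re (ψ v) (Ideal.Quotient.mk v.asIdeal (b j) * t ()),
        ← Complex.ofReal_mul, Complex.ofReal_re, Complex.ofReal_re, Complex.ofReal_re]
    rw [e, sum_unit g, hg, ← Finset.sum_div, ← Complex.re_sum, kl_second (hψ v) (h3 i) (h3 j), card_kv]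
    by_cases hij : i = j
    · subst hij
      rw [if_pos rfl, if_pos rfl]
      have e2 : (((nv v : ℕ) : ℂ) * (((nv v : ℕ) : ℂ) - 1)).re = (nv v : ℝ) * ((nv v : ℝ) - 1) := by
        have : ((nv v : ℕ) : ℂ) * (((nv v : ℕ) : ℂ) - 1) = (((nv v : ℝ) * ((nv v : ℝ) - 1) : ℝ) : ℂ) := by push_cast; rfl
        rw [this, Complex.ofReal_re]
      rw [e2]
      have e3 : (nv v : ℝ) * ((nv v : ℝ) - 1) / nv v / nv v - 1 = -(1 / nv v) := by field_simp; ring
      rw [e3, abs_neg, abs_of_pos (by positivity)]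
    · rw [if_neg hij, if_neg (h4 i j hij)]
      have e2 : (((nv v : ℕ) : ℂ) * (0 - 1)).re = -(nv v : ℝ) := by
        have : ((nv v : ℕ) : ℂ) * (0 - 1) = ((-(nv v : ℝ) : ℝ) : ℂ) := by push_cast; ring
        rw [this, Complex.ofReal_re]
      rw [e2]
      have e3 : -(nv v : ℝ) / nv v / nv v - 0 = -(1 / nv v) := by field_simp; ring
      rw [e3, abs_neg, abs_of_pos (by positivity)]

end

end Run7.h876.SU
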