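import Pool.Agent.Run7.h876.SU.Kl

/-!
# The fourth moments of Kloosterman sums
-/

set_option autoImplicit false
set_option linter.unusedSectionVars false

namespace Run7.h876.SU

open NumberField IsDedekindDomain Finset
open Run7.h876.MM (nv kv two_le_nv nv_pos avg norm_avg_le SZ mem_SZ card_SZ card_kv ring_char_two card_iota_pos instFieldKv instFintypeKv instDecKv)
open Run7.h876.EN Run7.h876.PW Run7.h876.MN
open Run7.h9.BS (prop Phi)
open scoped ComplexConjugate

section
variable {k : Type} [Field k] [Fintype k] [DecidableEq k] {ψ : AddChar k ℂ}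

/-- Plancherel. -/
theorem planch (hψ : ψ.IsPrimitive) (g h : k → ℂ) {b b' : k} (hb' : b' ≠ 0) :
    ∑ t : k, (∑ s, g s * ψ (b * t * s)) * conj (∑ s, h s * ψ (b' * t * s)) =
      Fintype.card k * ∑ s, g s * conj (h (b * s / b')) := by
  have e1 : ∀ t, (∑ s, g s * ψ (b * t * s)) * conj (∑ s, h s * ψ (b' * t * s)) = ∑ x : k, ∑ y : k,
      g x * conj (h y) * ψ (t * (b * x - b' * y)) := by
    intro t
    rw [map_sum, Finset.sum_mul_sum]
    refine Finset.sum_congr rfl fun x _ => Finset.sum_congr rfl fun y _ => ?_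
    rw [map_mul (starRingEnd ℂ), ← AddChar.map_neg_eq_conj]
    have : ψ (t * (b * x - b' * y)) = ψ (b * t * x) * ψ (-(b' * t * y)) := by
      rw [← AddChar.map_add_eq_mul]
      congr 1
      ring
    rw [this]
    ring
  simp only [e1]
  rw [Finset.sum_comm, Finset.mul_sum]
  refine Finset.sum_congr rfl fun x _ => ?_
  rw [Finset.sum_comm, Finset.sum_eq_single (b * x / b')]
  · rw [← Finset.mul_sum, AddChar.sum_mulShift _ hψ, if_pos]
    · ring
    · field_simp
      ring
  · intro y _ hy
    rw [← Finset.mul_sum, AddChar.sum_mulShift _ hψ, if_neg, Nat.cast_zero, mul_zero]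
    intro h
    apply hy
    rw [eq_div_iff hb', mul_comm y]
    exact (sub_eq_zero.1 h).symm
  · intro h; exact absurd (Finset.mem_univ _) h

variable (ψ)

/-- the inner sum -/
noncomputable def RR (z : k) : ℂ := ∑ u : k, if u = 0 ∨ u = 1 then 0 else ψ (z * (u * (1 - u))⁻¹)

/-- the coefficients of the square -/
noncomputable def gsq (s : k) : ℂ := if s = 0 then (Fintype.card k : ℂ) - 1 else RR ψ s⁻¹

theorem kl_sq (c : k) : kloosterman ψ c ^ 2 = ∑ s, gsq ψ s * ψ (c * s) := by
  have e0 : kloosterman ψ c = ∑ x : k, if x = 0 then 0 else ψ (c * x + x⁻¹) := by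
    unfold kloosterman
    exact Finset.sum_congr rfl fun x _ => by congr
  have e1 : kloosterman ψ c ^ 2 = ∑ x : k, ∑ s : k, (if x = 0 ∨ s = x then 0 else ψ (c * s) * ψ (x⁻¹ + (s - x)⁻¹)) := by
    rw [sq, e0, Finset.sum_mul_sum]
    refine Finset.sum_congr rfl fun x _ => ?_
    refine Fintype.sum_equiv (Equiv.addRight x) _ _ fun y => ?_
    rw [Equiv.coe_addRight]
    by_cases hx : x = 0
    · simp [hx]
    · by_cases hy : y = 0
      · simp [hy]
      · rw [if_neg hx, if_neg hy, if_neg, ← AddChar.map_add_eq_mul, ← AddChar.map_add_eq_mul]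
        · congr 1
          rw [add_sub_cancel_right]
          ring
        · rintro (h | h)
          · exact hx h
          · exact hy (by simpa using h)
  rw [e1, Finset.sum_comm]
  refine Finset.sum_congr rfl fun s _ => ?_
  unfold gsq
  by_cases hs : s = 0
  · rw [if_pos hs, hs, mul_zero, AddChar.map_zero_eq_one, mul_one]
    have : ∀ x : k, (if x = 0 ∨ (0 : k) = x then (0 : ℂ) else 1 * ψ (x⁻¹ + (0 - x)⁻¹)) = 1 - if x = 0 then 1 else 0 := by
      intro x
      by_cases hx : x = 0
      · simp [hx]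
      · rw [if_neg, if_neg hx, one_mul, zero_sub, inv_neg, add_neg_cancel, AddChar.map_zero_eq_one, sub_zero]
        rintro (h | h)
        · exact hx h
        · exact hx h.symm
    rw [Finset.sum_congr rfl fun x _ => this x, Finset.sum_sub_distrib]
    simp
  · rw [if_neg hs, RR, Finset.sum_mul]
    symm
    refine Fintype.sum_equiv (Equiv.mulLeft₀ s hs) _ _ fun u => ?_
    rw [show (Equiv.mulLeft₀ s hs) u = s * u from rfl]
    by_cases hu : u = 0
    · simp [hu]
    · by_cases hu1 : u = 1
      · simp [hu1]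
      · rw [if_neg, if_neg, mul_comm]
        · congr 2
          have h1 : 1 - u ≠ 0 := sub_ne_zero.2 (Ne.symm hu1)
          have h2 : s - s * u ≠ 0 := by
            rw [show s - s * u = s * (1 - u) by ring]
            exact mul_ne_zero hs h1
          field_simp
          ring
        · rintro (h | h)
          · exact (mul_ne_zero hs hu) h
          · exact hu1 (by
              have : s * 1 = s * u := by rw [mul_one]; exact h
              exact (mul_left_cancel₀ hs this).symm)
        · rintro (h | h)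
          · exact hu h
          · exact hu1 h

/-- the pairs -/
def NN (l : k) : Finset (k × k) :=
  Finset.univ.filter fun p => (¬ (p.1 = 0 ∨ p.1 = 1)) ∧ (¬ (p.2 = 0 ∨ p.2 = 1)) ∧ p.2 * (1 - p.2) = l * (p.1 * (1 - p.1))

variable {ψ}

theorem sum_RR (hψ : ψ.IsPrimitive) (l : k) : ∑ z, RR ψ z * conj (RR ψ (l * z)) = Fintype.card k * ((NN l).card : ℂ) := by
  have e1 : ∀ z, RR ψ z * conj (RR ψ (l * z)) = ∑ p : k × k,
      (if (¬ (p.1 = 0 ∨ p.1 = 1)) ∧ (¬ (p.2 = 0 ∨ p.2 = 1)) then ψ (z * ((p.1 * (1 - p.1))⁻¹ - l * (p.2 * (1 - p.2))⁻¹)) else 0) := by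
    intro z
    unfold RR
    rw [map_sum, Finset.sum_mul_sum, Fintype.sum_prod_type]
    refine Finset.sum_congr rfl fun u _ => Finset.sum_congr rfl fun v _ => ?_
    by_cases hu : u = 0 ∨ u = 1
    · simp [hu]
    · by_cases hv : v = 0 ∨ v = 1
      · simp [hv]
      · rw [if_neg hu, if_neg hv, if_pos ⟨hu, hv⟩, ← AddChar.map_neg_eq_conj, ← AddChar.map_add_eq_mul]
        congr 1
        ring
  simp only [e1]
  rw [Finset.sum_comm]
  have e2 : ∀ p : k × k, ∑ z, (if (¬ (p.1 = 0 ∨ p.1 = 1)) ∧ (¬ (p.2 = 0 ∨ p.2 = 1)) then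
      ψ (z * ((p.1 * (1 - p.1))⁻¹ - l * (p.2 * (1 - p.2))⁻¹)) else 0) =
      if (¬ (p.1 = 0 ∨ p.1 = 1)) ∧ (¬ (p.2 = 0 ∨ p.2 = 1)) ∧ p.2 * (1 - p.2) = l * (p.1 * (1 - p.1)) then (Fintype.card k : ℂ) else 0 := by
    rintro ⟨u, v⟩
    simp only
    by_cases hu : u = 0 ∨ u = 1
    · simp [hu]
    · by_cases hv : v = 0 ∨ v = 1
      · simp [hv]
      · have hh : (¬ (u = 0 ∨ u = 1)) ∧ (¬ (v = 0 ∨ v = 1)) := ⟨hu, hv⟩
        simp only [if_pos hh]
        rw [AddChar.sum_mulShift _ hψ]
        push Not at hu hv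
        have h1 : u * (1 - u) ≠ 0 := mul_ne_zero hu.1 (sub_ne_zero.2 (Ne.symm hu.2))
        have h2 : v * (1 - v) ≠ 0 := mul_ne_zero hv.1 (sub_ne_zero.2 (Ne.symm hv.2))
        have h3 : ((u * (1 - u))⁻¹ - l * (v * (1 - v))⁻¹ = 0) ↔ v * (1 - v) = l * (u * (1 - u)) := by
          rw [sub_eq_zero, ← div_eq_mul_inv, eq_div_iff h2, inv_mul_eq_iff_eq_mul₀ h1]
          constructor
          · intro h; rw [h]; ring
          · intro h; rw [h]; ring
        by_cases h : v * (1 - v) = l * (u * (1 - u))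
        · rw [if_pos (h3.2 h), if_pos ⟨hh.1, hh.2, h⟩]
        · rw [if_neg fun h' => h (h3.1 h'), if_neg fun h' => h h'.2.2, Nat.cast_zero]
  rw [Finset.sum_congr rfl fun p _ => e2 p, ← Finset.sum_filter, Finset.sum_const, nsmul_eq_mul, mul_comm]
  rfl

theorem RR_zero : RR ψ 0 = (Fintype.card k : ℂ) - 2 := by
  unfold RR
  have : ∀ u : k, (if u = 0 ∨ u = 1 then (0 : ℂ) else ψ (0 * (u * (1 - u))⁻¹)) = 1 - (if u = 0 then 1 else 0) - if u = 1 then 1 else 0 := by
    intro u
    rw [zero_mul, AddChar.map_zero_eq_one]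
    by_cases h0 : u = 0
    · have : u ≠ 1 := by rw [h0]; exact zero_ne_one
      simp [h0]
    · by_cases h1 : u = 1
      · simp [h1]
      · simp [h0, h1]
  rw [Finset.sum_congr rfl fun x _ => this x, Finset.sum_sub_distrib, Finset.sum_sub_distrib]
  simp
  ring

/-- **The fourth moments.** -/
theorem kl_fourth (hψ : ψ.IsPrimitive) {b b' : k} (hb : b ≠ 0) (hb' : b' ≠ 0) :
    ∑ t : k, kloosterman ψ (b * t) ^ 2 * kloosterman ψ (b' * t) ^ 2 =
      Fintype.card k * (((Fintype.card k : ℂ) - 1) ^ 2 + Fintype.card k * ((NN (b' / b)).card : ℂ) - ((Fintype.card k : ℂ) - 2) ^ 2) := by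
  have e0 : ∀ t, kloosterman ψ (b * t) ^ 2 * kloosterman ψ (b' * t) ^ 2 =
      (∑ s, gsq ψ s * ψ (b * t * s)) * conj (∑ s, gsq ψ s * ψ (b' * t * s)) := by
    intro t
    rw [← kl_sq, ← kl_sq, map_pow, conj_kl]
  simp only [e0]
  rw [planch hψ _ _ hb']
  congr 1
  rw [← Finset.add_sum_erase _ _ (Finset.mem_univ (0 : k))]
  have h0 : gsq ψ 0 * conj (gsq ψ (b * 0 / b')) = ((Fintype.card k : ℂ) - 1) ^ 2 := by
    have : gsq ψ (0 : k) = (Fintype.card k : ℂ) - 1 := if_pos rfl
    rw [mul_zero, zero_div, this, map_sub, map_one, Complex.conj_natCast]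
    ring
  rw [h0]
  have h1 : ∑ s ∈ Finset.univ.erase (0 : k), gsq ψ s * conj (gsq ψ (b * s / b')) =
      ∑ z ∈ Finset.univ.erase (0 : k), RR ψ z * conj (RR ψ (b' / b * z)) := by
    refine Finset.sum_bij' (fun s _ => s⁻¹) (fun s _ => s⁻¹) (fun s hs => ?_) (fun s hs => ?_) (fun s _ => inv_inv s)
      (fun s _ => inv_inv s) (fun s hs => ?_)
    · exact Finset.mem_erase.2 ⟨inv_ne_zero (Finset.ne_of_mem_erase hs), Finset.mem_univ _⟩
    · exact Finset.mem_erase.2 ⟨inv_ne_zero (Finset.ne_of_mem_erase hs), Finset.mem_univ _⟩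
    · have hs0 : s ≠ 0 := Finset.ne_of_mem_erase hs
      have hs1 : b * s / b' ≠ 0 := div_ne_zero (mul_ne_zero hb hs0) hb'
      unfold gsq
      rw [if_neg hs0, if_neg hs1, inv_div]
      congr 3
      field_simp
  rw [h1]
  have h2 := Finset.add_sum_erase Finset.univ (fun z => RR ψ z * conj (RR ψ (b' / b * z))) (Finset.mem_univ (0 : k))
  rw [sum_RR hψ] at h2
  have h3 : RR ψ 0 * conj (RR ψ (b' / b * 0)) = ((Fintype.card k : ℂ) - 2) ^ 2 := by
    rw [mul_zero, RR_zero, map_sub, Complex.conj_natCast, Complex.conj_ofNat]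
    ring
  simp only [h3] at h2
  rw [add_sub_assoc, ← h2]
  ring

/-- The number of the pairs for `l ≠ 1`. -/
theorem NN_le {l : k} (hl : l ≠ 0) (hl1 : l ≠ 1) : (NN l).card ≤ Fintype.card k := by
  rw [← Finset.card_univ]
  refine Finset.card_le_card_of_injOn (fun p => p.2 / p.1) (fun p _ => Finset.mem_coe.2 (Finset.mem_univ _)) ?_
  rintro ⟨u, v⟩ hp ⟨u', v'⟩ hp' h
  simp only at h
  obtain ⟨-, h1, h2, h3⟩ := Finset.mem_filter.1 (Finset.mem_coe.1 hp)
  obtain ⟨-, h1', h2', h3'⟩ := Finset.mem_filter.1 (Finset.mem_coe.1 hp')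
  simp only at h1 h2 h3 h1' h2' h3'
  push Not at h1 h2 h1' h2'
  obtain ⟨m, hm⟩ : ∃ m, m = v / u := ⟨_, rfl⟩
  have hv : v = m * u := by rw [hm, div_mul_cancel₀ _ h1.1]
  have hv' : v' = m * u' := by rw [hm, h, div_mul_cancel₀ _ h1'.1]
  have key : ∀ x : k, x ≠ 0 → m * x * (1 - m * x) = l * (x * (1 - x)) → x * (l - m ^ 2) = l - m := by
    intro x hx hh
    have : x * (x * (l - m ^ 2) - (l - m)) = 0 := by linear_combination hh
    rcases mul_eq_zero.1 this with h0 | h0
    · exact absurd h0 hx
    · exact sub_eq_zero.1 h0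
  rw [hv] at h3
  rw [hv'] at h3'
  have k1 := key u h1.1 h3
  have k2 := key u' h1'.1 h3'
  have hm2 : l - m ^ 2 ≠ 0 := by
    intro h0
    rw [h0, mul_zero] at k1
    have hlm : l = m := (sub_eq_zero.1 k1.symm)
    rw [hlm] at h0
    have : m * (1 - m) = 0 := by linear_combination h0
    rcases mul_eq_zero.1 this with h4 | h4
    · exact hl (hlm.trans h4)
    · exact hl1 (hlm.trans (sub_eq_zero.1 h4).symm)
  have : u = u' := mul_right_cancel₀ hm2 (k1.trans k2.symm)
  rw [hv, hv', this]

theorem NN_ge {l : k} (hl : l ≠ 0) : Fintype.card k ≤ (NN l).card + 5 := by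
  obtain ⟨M, hM⟩ : ∃ M : Finset k, M = Finset.univ.filter fun m => ¬ (m = 0 ∨ m = 1 ∨ m = l ∨ m ^ 2 = l) := ⟨_, rfl⟩
  have h1 : Fintype.card k ≤ M.card + 5 := by
    have hsq : (Finset.univ.filter fun m : k => m ^ 2 = l).card ≤ 2 := by
      by_cases h : ∃ m₀ : k, m₀ ^ 2 = l
      · obtain ⟨m₀, hm₀⟩ := h
        refine (Finset.card_le_card (t := {m₀, -m₀}) fun m hm => ?_).trans Finset.card_le_two
        have hm2 := (Finset.mem_filter.1 hm).2
        rw [← hm₀] at hm2
        rcases sq_eq_sq_iff_eq_or_eq_neg.1 hm2 with h | h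
        · rw [h]; simp
        · rw [h]; simp
      · rw [Finset.filter_false_of_mem fun m _ hm => h ⟨m, hm⟩]
        simp
    have hsub : (Finset.univ : Finset k) ⊆ M ∪ ({0, 1, l} ∪ Finset.univ.filter fun m : k => m ^ 2 = l) := by
      intro m _
      by_cases hm : (m = 0 ∨ m = 1 ∨ m = l ∨ m ^ 2 = l)
      · rcases hm with h | h | h | h
        · simp [h]
        · simp [h]
        · simp [h]
        · simp [h]
      · rw [hM]
        simp only [Finset.mem_union, Finset.mem_filter, Finset.mem_univ, true_and]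
        exact Or.inl hm
    calc Fintype.card k = (Finset.univ : Finset k).card := (Finset.card_univ).symm
      _ ≤ _ := Finset.card_le_card hsub
      _ ≤ M.card + (({0, 1, l} : Finset k) ∪ Finset.univ.filter fun m : k => m ^ 2 = l).card := Finset.card_union_le _ _
      _ ≤ M.card + (({0, 1, l} : Finset k).card + (Finset.univ.filter fun m : k => m ^ 2 = l).card) := by
          gcongr
          exact Finset.card_union_le _ _
      _ ≤ M.card + (3 + 2) := by
          gcongr
          exact Finset.card_le_three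
  have h2 : M.card ≤ (NN l).card := by
    refine Finset.card_le_card_of_injOn (fun m => ((l - m) / (l - m ^ 2), m * ((l - m) / (l - m ^ 2)))) (fun m hm => ?_) ?_
    · rw [Finset.mem_coe, hM, Finset.mem_filter] at hm
      have hm' := hm.2
      push Not at hm'
      obtain ⟨m0, m1, ml, m2⟩ := hm'
      have hd : l - m ^ 2 ≠ 0 := sub_ne_zero.2 (Ne.symm m2)
      have hn : l - m ≠ 0 := sub_ne_zero.2 (Ne.symm ml)
      rw [Finset.mem_coe, NN, Finset.mem_filter]
      refine ⟨Finset.mem_univ _, ?_, ?_, ?_⟩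
      · rintro (h | h)
        · exact (div_ne_zero hn hd) h
        · rw [div_eq_one_iff_eq hd] at h
          have : m * (m - 1) = 0 := by linear_combination h
          rcases mul_eq_zero.1 this with h | h
          · exact m0 h
          · exact m1 (sub_eq_zero.1 h)
      · rintro (h | h)
        · exact (mul_ne_zero m0 (div_ne_zero hn hd)) h
        · simp only at h
          rw [← mul_div_assoc, div_eq_one_iff_eq hd] at h
          have : l * (m - 1) = 0 := by linear_combination h
          rcases mul_eq_zero.1 this with h | h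
          · exact hl h
          · exact m1 (sub_eq_zero.1 h)
      · simp only
        field_simp
        ring
    · intro m hm m' hm' h
      simp only [Prod.mk.injEq] at h
      rw [Finset.mem_coe, hM, Finset.mem_filter] at hm
      have hm2 := hm.2
      push Not at hm2
      obtain ⟨m0, m1, ml, m2⟩ := hm2
      have hd : l - m ^ 2 ≠ 0 := sub_ne_zero.2 (Ne.symm m2)
      have hn : l - m ≠ 0 := sub_ne_zero.2 (Ne.symm ml)
      have h3 := h.2
      rw [← h.1] at h3
      exact mul_right_cancel₀ (div_ne_zero hn hd) h3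
  omega

theorem NN_one_le : (NN (1 : k)).card ≤ 2 * Fintype.card k := by
  have hsub : NN (1 : k) ⊆ (Finset.univ.image fun u : k => (u, u)) ∪ Finset.univ.image fun u : k => (u, 1 - u) := by
    rintro ⟨u, v⟩ hp
    have h := (Finset.mem_filter.1 hp).2.2.2
    simp only at h
    have : (v - u) * (1 - u - v) = 0 := by linear_combination h
    rw [Finset.mem_union, Finset.mem_image, Finset.mem_image]
    rcases mul_eq_zero.1 this with h | h
    · exact Or.inl ⟨u, Finset.mem_univ _, by rw [sub_eq_zero.1 h]⟩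
    · exact Or.inr ⟨u, Finset.mem_univ _, by rw [sub_eq_zero.1 h]⟩
  calc _ ≤ _ := Finset.card_le_card hsub
    _ ≤ _ := Finset.card_union_le _ _
    _ ≤ (Finset.univ : Finset k).card + (Finset.univ : Finset k).card := add_le_add Finset.card_image_le Finset.card_image_le
    _ = 2 * Fintype.card k := by rw [Finset.card_univ]; ring

theorem NN_one_ge : 2 * Fintype.card k ≤ (NN (1 : k)).card + 5 := by
  obtain ⟨A, hA⟩ : ∃ A : Finset k, A = Finset.univ.filter fun u => ¬ (u = 0 ∨ u = 1) := ⟨_, rfl⟩
  obtain ⟨B, hB⟩ : ∃ B : Finset k, B = Finset.univ.filter fun u => ¬ (u = 0 ∨ u = 1 ∨ u = 1 - u) := ⟨_, rfl⟩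
  have h1 : Fintype.card k ≤ A.card + 2 := by
    have hsub : (Finset.univ : Finset k) ⊆ A ∪ {0, 1} := by
      intro m _
      by_cases hm : (m = 0 ∨ m = 1)
      · rcases hm with h | h
        · simp [h]
        · simp [h]
      · rw [hA]
        simp only [Finset.mem_union, Finset.mem_filter, Finset.mem_univ, true_and]
        exact Or.inl hm
    calc Fintype.card k = (Finset.univ : Finset k).card := (Finset.card_univ).symm
      _ ≤ _ := Finset.card_le_card hsub
      _ ≤ _ := Finset.card_union_le _ _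
      _ ≤ A.card + 2 := by
          gcongr
          exact Finset.card_le_two
  have h2 : Fintype.card k ≤ B.card + 3 := by
    have hsub : (Finset.univ : Finset k) ⊆ B ∪ {0, 1, 2⁻¹} := by
      intro m _
      by_cases hm : (m = 0 ∨ m = 1 ∨ m = 1 - m)
      · rcases hm with h | h | h
        · simp [h]
        · simp [h]
        · have h3 : 2 * m = 1 := by linear_combination h
          have h4 : m = 2⁻¹ := eq_inv_of_mul_eq_one_right h3
          simp [h4]
      · rw [hB]
        simp only [Finset.mem_union, Finset.mem_filter, Finset.mem_univ, true_and]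
        exact Or.inl hm
    calc Fintype.card k = (Finset.univ : Finset k).card := (Finset.card_univ).symm
      _ ≤ _ := Finset.card_le_card hsub
      _ ≤ _ := Finset.card_union_le _ _
      _ ≤ B.card + 3 := by
          gcongr
          exact Finset.card_le_three
  have hsub : (A.image fun u : k => (u, u)) ∪ B.image (fun u : k => (u, 1 - u)) ⊆ NN (1 : k) := by
    intro p hp
    rw [Finset.mem_union, Finset.mem_image, Finset.mem_image] at hp
    rw [NN, Finset.mem_filter]
    rcases hp with ⟨u, hu, rfl⟩ | ⟨u, hu, rfl⟩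
    · rw [hA, Finset.mem_filter] at hu
      exact ⟨Finset.mem_univ _, hu.2, hu.2, by ring⟩
    · rw [hB, Finset.mem_filter] at hu
      have hu' := hu.2
      push Not at hu'
      refine ⟨Finset.mem_univ _, ?_, ?_, by ring⟩
      · rintro (h | h)
        · exact hu'.1 h
        · exact hu'.2.1 h
      · rintro (h | h)
        · exact hu'.2.1 (sub_eq_zero.1 h).symm
        · apply hu'.1
          simpa using h
  have hdis : Disjoint (A.image fun u : k => (u, u)) (B.image (fun u : k => (u, 1 - u))) := by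
    rw [Finset.disjoint_left]
    intro p hp hq
    obtain ⟨u, hu, rfl⟩ := Finset.mem_image.1 hp
    obtain ⟨u', hu', h⟩ := Finset.mem_image.1 hq
    rw [Prod.mk.injEq] at h
    rw [hB, Finset.mem_filter] at hu'
    apply hu'.2
    right; right
    rw [h.2, h.1]
  have hcA : (A.image fun u : k => (u, u)).card = A.card := Finset.card_image_of_injective _ fun x y h => (Prod.mk.inj h).1
  have hcB : (B.image fun u : k => (u, 1 - u)).card = B.card := Finset.card_image_of_injective _ fun x y h => (Prod.mk.inj h).1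
  have h3 := Finset.card_le_card hsub
  rw [Finset.card_union_of_disjoint hdis, hcA, hcB] at h3
  omega

end

end Run7.h876.SU
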