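import Pool.Agent.Run7.h876.SU.Kl2

/-!
# The local functions of the second character
-/

set_option autoImplicit false
set_option linter.unusedSectionVars false

namespace Run7.h876.SU

open NumberField IsDedekindDomain Finset
open Run7.h876.MM (nv kv two_le_nv nv_pos avg norm_avg_le SZ mem_SZ card_SZ card_kv ring_char_two card_iota_pos instFieldKv instFintypeKv instDecKv)
open Run7.h876.EN Run7.h876.PW Run7.h876.MN
open Run7.h9.BS (prop Phi)

section
variable {F : Type} [Field F] [NumberField F] {r : ℕ} (ψ : ∀ v : HeightOneSpectrum (𝓞 F), AddChar (kv v) ℂ) (b : Fin r → 𝓞 F)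

variable {b} in
theorem exists_good (hb : Function.Injective b) (hb0 : ∀ i, b i ≠ 0) :
    ∃ S : Set (HeightOneSpectrum (𝓞 F)), S.Finite ∧ ∀ v : HeightOneSpectrum (𝓞 F), v ∉ S → ringChar (kv v) ≠ 2 ∧
      (∀ i, (Ideal.Quotient.mk v.asIdeal (b i) : kv v) ≠ 0) ∧
      ∀ i j, i ≠ j → (Ideal.Quotient.mk v.asIdeal (b i) : kv v) ≠ Ideal.Quotient.mk v.asIdeal (b j) := by
  classical
  obtain ⟨N, hN⟩ : ∃ N : 𝓞 F, N = 2 * (∏ i, b i) * ∏ p ∈ (Finset.univ : Finset (Fin r × Fin r)).filter (fun p => p.1 ≠ p.2), (b p.1 - b p.2) :=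
    ⟨_, rfl⟩
  have hN0 : N ≠ 0 := by
    rw [hN]
    refine mul_ne_zero (mul_ne_zero two_ne_zero (Finset.prod_ne_zero_iff.2 fun i _ => hb0 i)) (Finset.prod_ne_zero_iff.2 fun p hp => ?_)
    exact sub_ne_zero.2 fun h => (Finset.mem_filter.1 hp).2 (hb h)
  have hfin : {v : HeightOneSpectrum (𝓞 F) | N ∈ v.asIdeal}.Finite := by
    have h1 := Ideal.finite_factors (R := 𝓞 F) (I := Ideal.span {N}) (by
      rw [Ne, Ideal.zero_eq_bot, Ideal.span_singleton_eq_bot]
      exact hN0)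
    refine h1.subset fun v hv => ?_
    show v.asIdeal ∣ Ideal.span {N}
    rw [Ideal.dvd_span_singleton]
    exact hv
  refine ⟨_, hfin, fun v hv => ?_⟩
  have hd : ∀ x : 𝓞 F, x ∣ N → x ∉ v.asIdeal := fun x hx hxv => by
    obtain ⟨y, hy⟩ := hx
    apply hv
    show N ∈ v.asIdeal
    rw [hy]
    exact v.asIdeal.mul_mem_right y hxv
  refine ⟨fun h => ?_, fun i h => ?_, fun i j hij h => ?_⟩
  · refine hd 2 ?_ ?_
    · rw [hN, mul_assoc]
      exact dvd_mul_right _ _
    · rw [← Ideal.Quotient.eq_zero_iff_mem, map_ofNat]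
      exact ring_char_two h
  · refine hd (b i) ?_ (Ideal.Quotient.eq_zero_iff_mem.1 h)
    rw [hN]
    exact Dvd.dvd.mul_right (Dvd.dvd.mul_left (Finset.dvd_prod_of_mem _ (Finset.mem_univ i)) _) _
  · refine hd (b i - b j) ?_ (Ideal.Quotient.eq.1 h)
    rw [hN]
    exact Dvd.dvd.mul_left (Finset.dvd_prod_of_mem (fun p : Fin r × Fin r => b p.1 - b p.2) (Finset.mem_filter.2 ⟨Finset.mem_univ (i, j), hij⟩)) _

open Classical in
/-- the local functions of the second character -/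
noncomputable def kf₂ (i : Fin r) (v : HeightOneSpectrum (𝓞 F)) (t : Unit → kv v) : ℝ :=
  if ringChar (kv v) ≠ 2 then (kloosterman (ψ v) (Ideal.Quotient.mk v.asIdeal (b i) * t ())).re ^ 2 / nv v - 1 else 0

theorem sum_real {k : Type} [Fintype k] (g : k → ℂ) (c : ℝ) (h : ∑ s, g s = (c : ℂ)) : ∑ s, (g s).re = c := by
  rw [← Complex.re_sum, h, Complex.ofReal_re]

theorem exists_kl₂ (hψ : ∀ v, (ψ v).IsPrimitive) (hb : Function.Injective b) (hb0 : ∀ i, b i ≠ 0) :
    ∃ 𝓛 : Loc F Unit (Fin r), 𝓛.f = kf₂ ψ b ∧ 𝓛.D = fun _ => 1 := by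
  classical
  obtain ⟨S, hS, hgood⟩ := exists_good hb hb0
  have hre : ∀ (v : HeightOneSpectrum (𝓞 F)) (c : kv v), (((kloosterman (ψ v) c).re ^ 2 : ℝ) : ℂ) = kloosterman (ψ v) c ^ 2 := by
    intro v c
    rw [Complex.ofReal_pow, kl_re]
  refine exists_loc (kf₂ ψ b) (fun _ => 1) (M := 3) (d := 1) (E₀ := 12) one_pos (fun _ => le_rfl) (by norm_num)
    (by norm_num) (fun i v t => ?_) hS (fun i v hv => ?_) (fun i j v hv => ?_)
  · unfold kf₂
    split_ifs with h
    · have h1 := kl_le h (hψ v) (Ideal.Quotient.mk v.asIdeal (b i) * t ())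
      rw [card_kv] at h1
      have hq := nv_pos v
      have h2 : ((kloosterman (ψ v) (Ideal.Quotient.mk v.asIdeal (b i) * t ())).re / Real.sqrt (nv v)) ^ 2 =
          (kloosterman (ψ v) (Ideal.Quotient.mk v.asIdeal (b i) * t ())).re ^ 2 / nv v := by
        rw [div_pow, Real.sq_sqrt hq.le]
      rw [← h2, abs_le]
      have h3 := abs_le.1 h1
      constructor <;> nlinarith [h3.1, h3.2]
    · rw [abs_zero]; norm_num
  · obtain ⟨h2, h3, -⟩ := hgood v hv
    have hq := nv_pos v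
    obtain ⟨g, hg⟩ : ∃ g : kv v → ℝ, g = fun s => (kloosterman (ψ v) (Ideal.Quotient.mk v.asIdeal (b i) * s)).re ^ 2 / nv v - 1 := ⟨_, rfl⟩
    have e : kf₂ ψ b i v = fun t => g (t ()) := by
      funext t
      unfold kf₂
      rw [if_pos h2, hg]
    have hsum : ∑ s : kv v, (kloosterman (ψ v) (Ideal.Quotient.mk v.asIdeal (b i) * s)).re ^ 2 = (nv v : ℝ) * ((nv v : ℝ) - 1) := by
      have h4 := kl_second (hψ v) (h3 i) (h3 i)
      rw [if_pos rfl, card_kv] at h4
      have h5 : ((∑ s : kv v, (kloosterman (ψ v) (Ideal.Quotient.mk v.asIdeal (b i) * s)).re ^ 2 : ℝ) : ℂ) =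
          (((nv v : ℝ) * ((nv v : ℝ) - 1) : ℝ) : ℂ) := by
        rw [Complex.ofReal_sum]
        simp only [hre]
        rw [show (((nv v : ℝ) * ((nv v : ℝ) - 1) : ℝ) : ℂ) = ((nv v : ℕ) : ℂ) * (((nv v : ℕ) : ℂ) - 1) by push_cast; rfl, ← h4]
        exact Finset.sum_congr rfl fun s _ => sq _
      exact_mod_cast h5
    rw [e, sum_unit g, hg, Finset.sum_sub_distrib, ← Finset.sum_div, hsum, Finset.sum_const, Finset.card_univ, card_kv, nsmul_eq_mul, mul_one]
    have e3 : ((nv v : ℝ) * ((nv v : ℝ) - 1) / nv v - nv v) / nv v = -(1 / nv v) := by field_simp; ring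
    rw [e3, abs_neg, abs_of_pos (by positivity)]
    gcongr
    norm_num
  · obtain ⟨h2, h3, h4⟩ := hgood v hv
    have hq := nv_pos v
    have hq1 : (1 : ℝ) ≤ nv v := by exact_mod_cast (two_le_nv v).trans' (by norm_num)
    obtain ⟨x, hx⟩ : ∃ x : kv v → ℝ, x = fun s => (kloosterman (ψ v) (Ideal.Quotient.mk v.asIdeal (b i) * s)).re ^ 2 := ⟨_, rfl⟩
    obtain ⟨y, hy⟩ : ∃ y : kv v → ℝ, y = fun s => (kloosterman (ψ v) (Ideal.Quotient.mk v.asIdeal (b j) * s)).re ^ 2 := ⟨_, rfl⟩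
    obtain ⟨g, hg⟩ : ∃ g : kv v → ℝ, g = fun s => x s * y s / nv v ^ 2 - x s / nv v - y s / nv v + 1 := ⟨_, rfl⟩
    have e : (fun t => kf₂ ψ b i v t * kf₂ ψ b j v t) = fun t => g (t ()) := by
      funext t
      unfold kf₂
      rw [if_pos h2, if_pos h2, hg, hx, hy]
      simp only
      field_simp
      ring
    have hsum : ∀ i : Fin r, ∑ s : kv v, (kloosterman (ψ v) (Ideal.Quotient.mk v.asIdeal (b i) * s)).re ^ 2 = (nv v : ℝ) * ((nv v : ℝ) - 1) := by
      intro i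
      have h4 := kl_second (hψ v) (h3 i) (h3 i)
      rw [if_pos rfl, card_kv] at h4
      have h5 : ((∑ s : kv v, (kloosterman (ψ v) (Ideal.Quotient.mk v.asIdeal (b i) * s)).re ^ 2 : ℝ) : ℂ) =
          (((nv v : ℝ) * ((nv v : ℝ) - 1) : ℝ) : ℂ) := by
        rw [Complex.ofReal_sum]
        simp only [hre]
        rw [show (((nv v : ℝ) * ((nv v : ℝ) - 1) : ℝ) : ℂ) = ((nv v : ℕ) : ℂ) * (((nv v : ℕ) : ℂ) - 1) by push_cast; rfl, ← h4]
        exact Finset.sum_congr rfl fun s _ => sq _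
      exact_mod_cast h5
    obtain ⟨N, hN⟩ : ∃ N : ℝ, N = ((NN ((Ideal.Quotient.mk v.asIdeal (b j) : kv v) / Ideal.Quotient.mk v.asIdeal (b i))).card : ℝ) := ⟨_, rfl⟩
    have hfour : ∑ s : kv v, x s * y s = (nv v : ℝ) * (((nv v : ℝ) - 1) ^ 2 + nv v * N - ((nv v : ℝ) - 2) ^ 2) := by
      have h4 := kl_fourth (hψ v) (h3 i) (h3 j)
      rw [card_kv] at h4
      have h5 : ((∑ s : kv v, x s * y s : ℝ) : ℂ) =
          (((nv v : ℝ) * (((nv v : ℝ) - 1) ^ 2 + nv v * N - ((nv v : ℝ) - 2) ^ 2) : ℝ) : ℂ) := by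
        rw [Complex.ofReal_sum, hx, hy]
        simp only [Complex.ofReal_mul, hre]
        rw [h4, hN]
        push_cast
        rfl
      exact_mod_cast h5
    have hx1 : ∑ s : kv v, x s = (nv v : ℝ) * ((nv v : ℝ) - 1) := by rw [hx]; exact hsum i
    have hy1 : ∑ s : kv v, y s = (nv v : ℝ) * ((nv v : ℝ) - 1) := by rw [hy]; exact hsum j
    have hgs : ∑ s : kv v, g s = N - nv v + 4 - 3 / nv v := by
      rw [hg]
      simp only [Finset.sum_add_distrib, Finset.sum_sub_distrib, ← Finset.sum_div]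
      rw [hfour, hx1, hy1, Finset.sum_const, Finset.card_univ, card_kv, nsmul_eq_mul, mul_one]
      field_simp
      ring
    rw [e, sum_unit g, hgs, card_kv]
    have h33 : 3 / (nv v : ℝ) ≤ 3 := by
      rw [div_le_iff₀ hq]
      linarith
    have h30 : 0 < 3 / (nv v : ℝ) := by positivity
    by_cases hij : i = j
    · rw [if_pos hij]
      have h6 : (Ideal.Quotient.mk v.asIdeal (b j) : kv v) / Ideal.Quotient.mk v.asIdeal (b i) = 1 := by
        rw [hij]
        exact div_self (h3 j)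
      rw [h6] at hN
      have h7 : N ≤ 2 * nv v := by
        rw [hN, ← card_kv v]
        exact_mod_cast NN_one_le (k := kv v)
      have h8 : 2 * (nv v : ℝ) ≤ N + 5 := by
        rw [hN, ← card_kv v]
        exact_mod_cast NN_one_ge (k := kv v)
      have e3 : (N - nv v + 4 - 3 / nv v) / nv v - 1 = (N - 2 * nv v + 4 - 3 / nv v) / nv v := by field_simp; ring
      rw [e3, abs_div, abs_of_pos hq]
      gcongr
      rw [abs_le]
      constructor <;> linarith
    · rw [if_neg hij, sub_zero]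
      have h6 : (Ideal.Quotient.mk v.asIdeal (b j) : kv v) / Ideal.Quotient.mk v.asIdeal (b i) ≠ 1 := by
        rw [Ne, div_eq_one_iff_eq (h3 i)]
        exact (h4 i j hij).symm
      have h60 : (Ideal.Quotient.mk v.asIdeal (b j) : kv v) / Ideal.Quotient.mk v.asIdeal (b i) ≠ 0 := div_ne_zero (h3 j) (h3 i)
      have h7 : N ≤ nv v := by
        rw [hN, ← card_kv v]
        exact_mod_cast NN_le h60 h6
      have h8 : (nv v : ℝ) ≤ N + 5 := by
        rw [hN, ← card_kv v]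
        exact_mod_cast NN_ge h60
      rw [abs_div, abs_of_pos hq]
      gcongr
      rw [abs_le]
      constructor <;> linarith

end

end Run7.h876.SU
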