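import Pool.Agent.Run7.h876.SU.Kl3

/-!
# The local functions by the Chebyshev polynomials
-/

set_option autoImplicit false
set_option linter.unusedSectionVars false

namespace Run7.h876.SU

open NumberField IsDedekindDomain Finset
open Run7.h876.MM (nv kv two_le_nv nv_pos avg norm_avg_le SZ mem_SZ card_SZ card_kv ring_char_two card_iota_pos instFieldKv instFintypeKv instDecKv)
open Run7.h876.EN Run7.h876.PW Run7.h876.MN

section
variable {F : Type} [Field F] [NumberField F] {r : ℕ} {ψ : ∀ v : HeightOneSpectrum (𝓞 F), AddChar (kv v) ℂ} {b : Fin r → 𝓞 F}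

theorem two_iff' (v : HeightOneSpectrum (𝓞 F)) : ((2 : 𝓞 F) ∈ v.asIdeal) ↔ ringChar (kv v) = 2 := by
  rw [← Ideal.Quotient.eq_zero_iff_mem, map_ofNat]
  constructor
  · intro h
    by_contra hne
    exact Run7.h876.MM.two_ne (k := kv v) hne h
  · exact fun h => ring_char_two h

theorem kf_eq {v : HeightOneSpectrum (𝓞 F)} (h : ringChar (kv v) ≠ 2) (i : Fin r) (t : Unit → kv v) :
    kf ψ b i v t = klChar 1 (ψ v) (Ideal.Quotient.mk v.asIdeal (b i) * t ()) := by
  unfold kf
  rw [if_pos h]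
  have hq := nv_pos v
  have hs : 0 < Real.sqrt (nv v) := Real.sqrt_pos.2 hq
  unfold klChar
  rw [Polynomial.Chebyshev.U_one, card_kv]
  simp only [Polynomial.eval_mul, Polynomial.eval_ofNat, Polynomial.eval_X]
  field_simp

theorem kf₂_eq {v : HeightOneSpectrum (𝓞 F)} (h : ringChar (kv v) ≠ 2) (i : Fin r) (t : Unit → kv v) :
    kf₂ ψ b i v t = klChar 2 (ψ v) (Ideal.Quotient.mk v.asIdeal (b i) * t ()) := by
  unfold kf₂
  rw [if_pos h]
  have hq := nv_pos v
  have hs : 0 < Real.sqrt (nv v) := Real.sqrt_pos.2 hq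
  unfold klChar
  rw [Polynomial.Chebyshev.U_two, card_kv]
  simp only [Polynomial.eval_sub, Polynomial.eval_one, Polynomial.eval_mul, Polynomial.eval_pow, Polynomial.eval_ofNat, Polynomial.eval_X]
  rw [div_pow, mul_pow, Real.sq_sqrt hq.le]
  field_simp
  ring

end

end Run7.h876.SU
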