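import Pool.Agent.Run7.h876.SU.Char

/-!
# The central limit theorem, uniformly in the weights
-/

set_option autoImplicit false
set_option linter.unusedSectionVars false

namespace Run7.h876.SU

open NumberField IsDedekindDomain Finset Filter Topology MeasureTheory
open Run7.h876.MM (nv kv two_le_nv nv_pos avg norm_avg_le SZ mem_SZ card_SZ instFieldKv instFintypeKv instDecKv)
open Run7.h876.EN Run7.h876.PW Run7.h876.MN
open Run7.h9.BS (cv cv_pos prop Phi emp emp_prob emp_charFun emp_Iic)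

section
variable {K : Type} [Field K] [NumberField K] {J : Type} [Fintype J] [DecidableEq J] {I : Type} [Fintype I] [DecidableEq I]
variable (𝓛 : Loc K J I)
variable {ι : Type} [Fintype ι] [DecidableEq ι] (ω : Module.Basis ι ℤ (𝓞 K)) {G : Set (J → 𝓞 K)} {Cb : ℝ}

/-- **The central limit theorem.** -/
theorem law (hCb : 0 ≤ Cb) (hG : Thin ω G Cb) {E : Set ℝ} (hE : MeasurableSet E)
    (hfr0 : (ProbabilityTheory.gaussianReal 0 1) (frontier E) = 0) {ε : ℝ} (hε : 0 < ε) :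
    ∃ C : ℕ, ∃ V₀ : ℝ, ∀ (Z : ℕ) (c : I → HeightOneSpectrum (𝓞 K) → ℝ), (∀ i v, |c i v| ≤ 1) → V₀ ≤ VV 𝓛 c Z →
      ∀ H : J → ℕ, (∀ j, Z ^ C ≤ H j) →
      |prop ω H G (fun t => SS 𝓛 c Z t / Real.sqrt (VV 𝓛 c Z) ∈ E) - (ProbabilityTheory.gaussianReal 0 1).real E| ≤ ε := by
  classical
  by_contra hcon
  push Not at hcon
  obtain ⟨Z₁, hZ₁⟩ := nonempty_thick ω hG
  obtain ⟨V₁, hV₁⟩ := size_Z 𝓛 (max Z₁ 1)
  choose Zn cn hcn hVn Hn hHn hbad using fun n : ℕ => hcon (n + 1) (max (n : ℝ) V₁)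
  have hZZ : ∀ n, max Z₁ 1 ≤ Zn n := fun n => hV₁ (Zn n) (cn n) (hcn n) ((le_max_right _ _).trans (hVn n))
  have hZ1 : ∀ n, 1 ≤ Zn n := fun n => (le_max_right _ _).trans (hZZ n)
  have hZn1 : ∀ n, Z₁ ≤ Zn n := fun n => (le_max_left _ _).trans (hZZ n)
  have hVnn : ∀ n : ℕ, (n : ℝ) ≤ VV 𝓛 (cn n) (Zn n) := fun n => (le_max_left _ _).trans (hVn n)
  set S : ℕ → Finset (J × ι → ℤ) := fun n => (box ι (Hn n)).filter fun c => tuple ω c ∈ G with hS
  have hSne : ∀ n, (S n).Nonempty := fun n => hZ₁ (Zn n) (hZn1 n) (Hn n) (fun j => by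
    refine le_trans ?_ (hHn n j)
    calc Zn n = Zn n ^ 1 := (pow_one _).symm
      _ ≤ _ := Nat.pow_le_pow_right (hZ1 n) (by omega))
  set X : ∀ n : ℕ, (J × ι → ℤ) → ℝ := fun n x => SS 𝓛 (cn n) (Zn n) (tuple ω x) / Real.sqrt (VV 𝓛 (cn n) (Zn n)) with hX
  set μ : ℕ → ProbabilityMeasure ℝ := fun n => ⟨emp (S n) (X n), emp_prob _ (hSne n) _⟩ with hμ
  set μ₀ : ProbabilityMeasure ℝ := ⟨ProbabilityTheory.gaussianReal 0 1, inferInstance⟩ with hμ₀
  have hconv : Tendsto μ atTop (𝓝 μ₀) := by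
    refine ProbabilityMeasure.tendsto_of_tendsto_charFun fun u => ?_
    show Tendsto (fun n => charFun (emp (S n) (X n)) u) atTop (𝓝 (charFun (ProbabilityTheory.gaussianReal 0 1) u))
    rw [ProbabilityTheory.charFun_gaussianReal]
    have hfin : ∀ n, charFun (emp (S n) (X n)) u = mean ω (Hn n) G (fun t =>
        Complex.exp (Complex.I * ((u / Real.sqrt (VV 𝓛 (cn n) (Zn n)) * SS 𝓛 (cn n) (Zn n) t : ℝ) : ℂ))) := by
      intro n
      rw [emp_charFun]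
      unfold mean
      have e1 : ∀ x, Complex.exp (u * (X n x : ℂ) * Complex.I) =
          Complex.exp (Complex.I * ((u / Real.sqrt (VV 𝓛 (cn n) (Zn n)) * SS 𝓛 (cn n) (Zn n) (tuple ω x) : ℝ) : ℂ)) := by
        intro x
        congr 1
        simp only [hX]
        push_cast
        ring
      simp only [e1]
      rfl
    have e5 : Complex.exp (u * ((0 : ℝ) : ℂ) * Complex.I - ((1 : NNReal) : ℝ) * (u : ℂ) ^ 2 / 2) = Complex.exp (-((u : ℂ) ^ 2) / 2) := by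
      congr 1
      push_cast
      ring
    rw [e5, Metric.tendsto_atTop]
    intro δ hδ
    obtain ⟨C', V', h'⟩ := char_uniform 𝓛 ω hCb hG u (half_pos hδ)
    obtain ⟨N', hN'⟩ := exists_nat_ge V'
    refine ⟨max C' N', fun n hn => ?_⟩
    rw [dist_eq_norm, hfin]
    have h1 := h' (Zn n) (cn n) (hcn n) (hN'.trans ((by exact_mod_cast (le_max_right _ _).trans hn : (N' : ℝ) ≤ n).trans (hVnn n))) (Hn n)
      (fun j => by
        refine le_trans ?_ (hHn n j)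
        exact Nat.pow_le_pow_right (hZ1 n) (((le_max_left _ _).trans hn).trans (Nat.le_succ n)))
    linarith
  have hport := ProbabilityMeasure.tendsto_measure_of_null_frontier_of_tendsto' hconv hfr0
  have hport2 : Tendsto (fun n => (emp (S n) (X n)).real E) atTop (𝓝 ((ProbabilityTheory.gaussianReal 0 1).real E)) := by
    have := (ENNReal.tendsto_toReal (measure_ne_top (μ₀ : Measure ℝ) E)).comp hport
    exact this
  have hev := (Metric.tendsto_atTop.1 hport2 ε hε)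
  obtain ⟨N, hN⟩ := hev
  have h1 := hN N le_rfl
  rw [Real.dist_eq, emp_set _ _ hE] at h1
  have h2 := hbad N
  have e : prop ω (Hn N) G (fun t => SS 𝓛 (cn N) (Zn N) t / Real.sqrt (VV 𝓛 (cn N) (Zn N)) ∈ E) =
      (((S N).filter fun c => X N c ∈ E).card : ℝ) / (S N).card := by
    unfold prop
    congr 2
    simp only [hS, Finset.filter_filter, hX]
  rw [e] at h2
  linarith

/-- If the variance is large, it is positive. -/
theorem clt (hCb : 0 ≤ Cb) (hG : Thin ω G Cb) (a : ℝ) {ε : ℝ} (hε : 0 < ε) :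
    ∃ C : ℕ, ∃ V₀ : ℝ, ∀ (Z : ℕ) (c : I → HeightOneSpectrum (𝓞 K) → ℝ), (∀ i v, |c i v| ≤ 1) → V₀ ≤ VV 𝓛 c Z →
      ∀ H : J → ℕ, (∀ j, Z ^ C ≤ H j) →
      |prop ω H G (fun t => SS 𝓛 c Z t ≤ a * Real.sqrt (VV 𝓛 c Z)) - Phi a| ≤ ε := by
  obtain ⟨C, V₀, h⟩ := law 𝓛 ω hCb hG (measurableSet_Iic (a := a)) (Phi_frontier a) hε
  refine ⟨C, max V₀ 1, fun Z c hc hV H hH => ?_⟩
  have h1 := h Z c hc ((le_max_left _ _).trans hV) H hH
  have hV1 : 1 ≤ VV 𝓛 c Z := (le_max_right _ _).trans hV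
  have hσ0 : 0 < Real.sqrt (VV 𝓛 c Z) := Real.sqrt_pos.2 (by linarith)
  have e : (fun t => SS 𝓛 c Z t / Real.sqrt (VV 𝓛 c Z) ∈ Set.Iic a) = fun t => SS 𝓛 c Z t ≤ a * Real.sqrt (VV 𝓛 c Z) := by
    funext t
    rw [Set.mem_Iic, div_le_iff₀ hσ0]
  rw [e] at h1
  exact h1

end

end Run7.h876.SU
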