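import Pool.Agent.Run7.h876.SU.Law
import Pool.Agent.Run7.h876.SU.Defs
import Pool.Agent.Run7.h876.EN.NS
import Pool.Agent.Run7.h328.SEP.HypK

/-!
# The local moments of the characters
-/

set_option autoImplicit false
set_option linter.unusedSectionVars false

namespace Run7.h876.SU

open NumberField IsDedekindDomain Finset Polynomial
open Run7.h876.MM (nv kv two_le_nv nv_pos avg norm_avg_le SZ mem_SZ card_SZ card_kv instFieldKv instFintypeKv instDecKv)
open Run7.h876.EN Run7.h876.PW Run7.h876.MN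
open Pool.Agent.V11210.G2 (s1 s1_le t2 t2_le comb mm)

/-! ### polynomials which are not separable -/

theorem quintic_split {R : Type} [CommRing R] (c : Fin 5 → R) :
    quintic c = (X ^ 5 + ∑ i : Fin 4, C (c i.succ) * X ^ ((i : ℕ) + 1)) + C (c 0) := by
  unfold quintic
  rw [Fin.sum_univ_succ]
  simp only [Fin.val_zero, pow_zero, mul_one, Fin.val_succ]
  ring

theorem quintic_monic {R : Type} [CommRing R] [Nontrivial R] (u : Fin 4 → R) :
    (X ^ 5 + ∑ i : Fin 4, C (u i) * X ^ ((i : ℕ) + 1) : R[X]).Monic ∧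
    (X ^ 5 + ∑ i : Fin 4, C (u i) * X ^ ((i : ℕ) + 1) : R[X]).natDegree = 5 := by
  have hd : (∑ i : Fin 4, C (u i) * X ^ ((i : ℕ) + 1) : R[X]).degree < 5 := by
    refine (degree_sum_le _ _).trans_lt ?_
    rw [Finset.sup_lt_iff (by decide)]
    intro i _
    refine (degree_C_mul_X_pow_le _ _).trans_lt ?_
    exact_mod_cast (by omega : (i : ℕ) + 1 < 5)
  have h1 : (X ^ 5 + ∑ i : Fin 4, C (u i) * X ^ ((i : ℕ) + 1) : R[X]).Monic := monic_X_pow_add (by exact_mod_cast hd)
  refine ⟨h1, ?_⟩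
  have h2 : (X ^ 5 + ∑ i : Fin 4, C (u i) * X ^ ((i : ℕ) + 1) : R[X]).degree = 5 := by
    rw [degree_add_eq_left_of_degree_lt (by rw [degree_X_pow]; exact_mod_cast hd), degree_X_pow]
    rfl
  exact natDegree_eq_of_degree_eq_some h2

/-- At most five values of the last coefficient give a polynomial which is not separable. -/
theorem quintic_fiber {k : Type} [Field k] (h5 : (5 : k) ≠ 0) (u : Fin 4 → k) (B : Finset k)
    (hB : ∀ b ∈ B, ¬ ((X ^ 5 + ∑ i : Fin 4, C (u i) * X ^ ((i : ℕ) + 1)) + C b : k[X]).Separable) : B.card ≤ 5 := by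
  obtain ⟨hm, hd⟩ := quintic_monic u
  have h := nonsep_fiber hm (R := ∅) (by rw [hd, Finset.card_empty]; norm_num) (fun x hx => absurd hx (Finset.notMem_empty _))
    (by rw [hd, Finset.card_empty]; exact_mod_cast h5) B (fun b hb => by
      have e : mR (∅ : Finset k) * C b = C b := by
        unfold mR
        rw [Finset.prod_empty, one_mul]
      rw [e]
      exact hB b hb)
  rw [hd, Finset.card_empty] at h
  exact h

open Classical in
theorem card_nonsep {k : Type} [Field k] [Fintype k] (h5 : (5 : k) ≠ 0) :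
    (Finset.univ.filter fun c : Fin 5 → k => ¬ (quintic c).Separable).card ≤ 5 * Fintype.card k ^ 4 := by
  obtain ⟨S, hS⟩ : ∃ S, S = Finset.univ.filter fun c : Fin 5 → k => ¬ (quintic c).Separable := ⟨_, rfl⟩
  rw [← hS]
  have h1 := Finset.card_le_mul_card_image (f := fun c : Fin 5 → k => fun i : Fin 4 => c i.succ) S 5 (fun u _ => by
    have hinj : Set.InjOn (fun c : Fin 5 → k => c 0) ((S.filter fun c => (fun i : Fin 4 => c i.succ) = u : Finset (Fin 5 → k)) : Set (Fin 5 → k)) := by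
      intro c hc c' hc' h
      have e1 := (Finset.mem_filter.1 hc).2
      have e2 := (Finset.mem_filter.1 hc').2
      funext j
      refine Fin.cases h (fun i => ?_) j
      exact (congrFun e1 i).trans (congrFun e2 i).symm
    rw [← Finset.card_image_of_injOn hinj]
    refine quintic_fiber h5 u _ fun b hb => ?_
    obtain ⟨c, hc, rfl⟩ := Finset.mem_image.1 hb
    obtain ⟨hc1, hc2⟩ := Finset.mem_filter.1 hc
    rw [hS] at hc1
    have h2 := (Finset.mem_filter.1 hc1).2
    rw [quintic_split] at h2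
    rw [← hc2]
    exact h2)
  refine h1.trans (Nat.mul_le_mul_left 5 ?_)
  refine (Finset.card_le_univ _).trans ?_
  rw [Fintype.card_fun, Fintype.card_fin]

/-! ### the moments -/

section
variable {k : Type} [Field k] [Fintype k]

theorem a₁_eq (c : Fin 5 → k) : a₁ k c = Run7.h328.SEP.HypK.a1 k (D := 2 * 2 + 1) c := by
  unfold a₁ Run7.h328.SEP.HypK.a1
  congr 1
  have : (points c : ℝ) = (Run7.h328.SEP.HypK.N1 (D := 2 * 2 + 1) c : ℝ) := rfl
  rw [this]
  ring

theorem a₂_eq (c : Fin 5 → k) : a₂ k c = Run7.h328.SEP.HypK.a2 k (D := 2 * 2 + 1) c := by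
  unfold a₂ Run7.h328.SEP.HypK.a2
  congr 1
  have e1 : (points c : ℝ) = (Run7.h328.SEP.HypK.N1 (D := 2 * 2 + 1) c : ℝ) := rfl
  have e2 : (points₂ k c : ℝ) = (Run7.h328.SEP.HypK.N2 k (D := 2 * 2 + 1) c : ℝ) := rfl
  rw [e1, e2]
  ring

theorem a₁_le (hk : ringChar k ≠ 2) (c : Fin 5 → k) : |a₁ k c| ≤ 4 := by
  rw [a₁_eq]
  refine (Run7.h328.SEP.HypK.a1_le k hk (g := 2) c).trans (le_of_eq ?_)
  norm_num

theorem a₂_le (hk : ringChar k ≠ 2) (c : Fin 5 → k) : |a₂ k c| ≤ 10 := by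
  rw [a₂_eq]
  refine (Run7.h328.SEP.HypK.a2_le k hk (g := 2) c).trans (le_of_eq ?_)
  norm_num

theorem chi_le (hk : ringChar k ≠ 2) (i : Fin 4) (c : Fin 5 → k) : |chi i k c| ≤ 76 := by
  have h1 := abs_le.1 (a₁_le hk c)
  have h2 := abs_le.1 (a₂_le hk c)
  obtain ⟨s, hs⟩ : ∃ s, s = a₁ k c := ⟨_, rfl⟩
  obtain ⟨A, hA⟩ : ∃ A, A = a₂ k c := ⟨_, rfl⟩
  rw [← hs] at h1
  rw [← hA] at h2
  have hsq : s ^ 2 ≤ 16 := by nlinarith
  have hsq0 : 0 ≤ s ^ 2 := sq_nonneg s
  have hcube : |s ^ 3| ≤ 64 := by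
    rw [abs_pow]
    have : |s| ≤ 4 := abs_le.2 h1
    calc |s| ^ 3 ≤ 4 ^ 3 := pow_le_pow_left₀ (abs_nonneg _) this 3
      _ = 64 := by norm_num
  have hcube' := abs_le.1 hcube
  unfold chi
  rw [← hs, ← hA, abs_le]
  fin_cases i
  · simp; constructor <;> linarith
  · simp; constructor <;> linarith
  · simp; constructor <;> linarith
  · simp; constructor <;> linarith

/-- the monomials -/
noncomputable def sm (k : Type) [Field k] [Fintype k] (i j : ℕ) (c : Fin 5 → k) : ℝ := a₁ k c ^ i * a₂ k c ^ j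

/-- the mean -/
noncomputable def Lin (k : Type) [Field k] [Fintype k] [DecidableEq k] : ((Fin 5 → k) → ℝ) →ₗ[ℝ] ℝ where
  toFun f := av Finset.univ f
  map_add' f g := av_add _ f g
  map_smul' a f := av_mul _ a f

end

theorem N2_all (k : Type) [Field k] [Fintype k] [DecidableEq k] (hk : ringChar k ≠ 2) (D : ℕ) :
    ∃ (L : Type) (_ : Field L) (_ : Fintype L) (_ : DecidableEq L) (_ : Algebra k L),
      Fintype.card L = Fintype.card k ^ 2 ∧ ∀ u : Fin D → k, (Run7.h328.SEP.HypK.N2 k u : ℝ) = (Fintype.card k : ℝ) ^ 2 +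
        Pool.Agent.V11210.G2.SS L u := by
  classical
  haveI : Fact (ringChar k).Prime := ⟨CharP.char_is_prime k (ringChar k)⟩
  have hcard : Nat.card (FiniteField.Extension k (ringChar k) 2) = Nat.card k ^ 2 :=
    FiniteField.natCard_extension k (ringChar k) 2
  letI : Fintype (FiniteField.Extension k (ringChar k) 2) := Fintype.ofFinite _
  rw [Nat.card_eq_fintype_card, Nat.card_eq_fintype_card] at hcard
  refine ⟨FiniteField.Extension k (ringChar k) 2, inferInstance, inferInstance, inferInstance, inferInstance, hcard, fun u => ?_⟩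
  unfold Run7.h328.SEP.HypK.N2 Run7.h328.SEP.HypK.N1 Pool.Agent.V11210.G2.SS
  have h2 := Run7.h328.SEP.HypK.card_affine (Pool.Agent.V11210.G2.charL k (FiniteField.Extension k (ringChar k) 2) hk)
    (fun x : FiniteField.Extension k (ringChar k) 2 =>
      x ^ D + ∑ i, algebraMap k (FiniteField.Extension k (ringChar k) 2) (u i) * x ^ (i : ℕ))
  rw [h2, hcard]
  push_cast
  rfl

theorem mom_sm (i j : ℕ) (hij : (j = 0 ∧ i ≤ 7) ∨ (j = 1 ∧ i ≤ 3) ∨ (j = 2 ∧ i ≤ 1)) :
    ∃ C : ℝ, 0 ≤ C ∧ ∀ (k : Type) [Field k] [Fintype k] [DecidableEq k], ringChar k ≠ 2 →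
      |Lin k (sm k i j) - mm 2 i j| ≤ C / Fintype.card k := by
  obtain ⟨C, hC, h⟩ := comb 2 i j (by omega)
  refine ⟨C, hC, fun k _ _ _ hk => ?_⟩
  obtain ⟨L, i1, i2, i3, i4, hc, hN⟩ := N2_all k hk (2 * 2 + 1)
  have h1 := h k L hk hc
  have e : Lin k (sm k i j) = Pool.Agent.V11210.G2.av (fun u : Fin (2 * 2 + 1) → k => s1 u ^ i * ((s1 u ^ 2 - t2 L u) / 2) ^ j) := by
    show av Finset.univ (sm k i j) = _
    unfold av Pool.Agent.V11210.G2.av
    congr 1
    · refine Finset.sum_congr rfl fun u _ => ?_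
      unfold sm
      rw [a₁_eq, a₂_eq, Run7.h328.SEP.HypK.a1_eq k hk]
      congr 2
      exact Run7.h328.SEP.HypK.a2_eq k hk u (Pool.Agent.V11210.G2.SS L u) (hN u)
    · rw [Finset.card_univ, Fintype.card_fun, Fintype.card_fin]
      push_cast
      rfl
  rw [e]
  exact h1

end Run7.h876.SU
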