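import Pool.Agent.Run7.h876.SU.Loc

/-!
# The characters: the local data
-/

set_option autoImplicit false
set_option linter.unusedSectionVars false

namespace Run7.h876.SU

open NumberField IsDedekindDomain Finset Polynomial
open Run7.h876.MM (nv kv two_le_nv nv_pos avg norm_avg_le SZ mem_SZ card_SZ card_kv instFieldKv instFintypeKv instDecKv)
open Run7.h876.EN Run7.h876.PW Run7.h876.MN
open Pool.Agent.V11210.G2 (mm)

/-- the moments over `USp(4)` -/
def mo : ℕ → ℕ → ℝ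
  | 0, 0 => 1
  | 2, 0 => 1
  | 4, 0 => 3
  | 6, 0 => 14
  | 0, 1 => 1
  | 2, 1 => 2
  | 0, 2 => 2
  | _, _ => 0

theorem mo_eq (i j : ℕ) (h : (j = 0 ∧ i ≤ 7) ∨ (j = 1 ∧ i ≤ 3) ∨ (j = 2 ∧ i ≤ 1)) : mm 2 i j = mo i j := by
  have hj : j ≤ 2 := by omega
  have hi : i ≤ 7 := by omega
  unfold Pool.Agent.V11210.G2.mm Pool.Agent.Y57.FD.Mom.usp Pool.Agent.Y57.FD.Mom.normal
  interval_cases j <;> interval_cases i <;> first
    | omega
    | (simp [mo, Nat.doubleFactorial, Nat.even_iff]; done)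
    | (simp [mo, Nat.doubleFactorial, Nat.even_iff]; norm_num)

theorem mom_all : ∃ C : ℝ, 0 ≤ C ∧ ∀ (i j : ℕ), ((j = 0 ∧ i ≤ 7) ∨ (j = 1 ∧ i ≤ 3) ∨ (j = 2 ∧ i ≤ 1)) →
    ∀ (k : Type) [Field k] [Fintype k] [DecidableEq k], ringChar k ≠ 2 → |Lin k (sm k i j) - mo i j| ≤ C / Fintype.card k := by
  have h0 : ∀ p : Fin 8 × Fin 3, ∃ C : ℝ, 0 ≤ C ∧
      ((((p.2 : ℕ) = 0 ∧ (p.1 : ℕ) ≤ 7) ∨ ((p.2 : ℕ) = 1 ∧ (p.1 : ℕ) ≤ 3) ∨ ((p.2 : ℕ) = 2 ∧ (p.1 : ℕ) ≤ 1)) →
      ∀ (k : Type) [Field k] [Fintype k] [DecidableEq k], ringChar k ≠ 2 →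
        |Lin k (sm k p.1 p.2) - mm 2 p.1 p.2| ≤ C / Fintype.card k) := by
    intro p
    by_cases hp : (((p.2 : ℕ) = 0 ∧ (p.1 : ℕ) ≤ 7) ∨ ((p.2 : ℕ) = 1 ∧ (p.1 : ℕ) ≤ 3) ∨ ((p.2 : ℕ) = 2 ∧ (p.1 : ℕ) ≤ 1))
    · obtain ⟨C, hC, h⟩ := mom_sm p.1 p.2 hp
      exact ⟨C, hC, fun _ => h⟩
    · exact ⟨0, le_rfl, fun h => absurd h hp⟩
  choose C hC h using h0
  refine ⟨∑ p, C p, Finset.sum_nonneg fun p _ => hC p, fun i j hij k _ _ _ hk => ?_⟩
  have h1 := h (⟨i, by omega⟩, ⟨j, by omega⟩) hij k hk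
  simp only at h1
  rw [mo_eq i j hij] at h1
  refine h1.trans (div_le_div_of_nonneg_right ?_ (by positivity))
  exact Finset.single_le_sum (f := C) (fun p _ => hC p) (Finset.mem_univ _)

/-- the variances -/
def DD : Fin 4 → ℝ := ![1, 1, 1, 5]

theorem chi_moments : ∃ C : ℝ, 0 ≤ C ∧ ∀ (k : Type) [Field k] [Fintype k] [DecidableEq k], ringChar k ≠ 2 →
    (∀ i, |Lin k (chi i k)| ≤ C / Fintype.card k) ∧
    ∀ i j, |Lin k (fun c => chi i k c * chi j k c) - (if i = j then DD i else 0)| ≤ C / Fintype.card k := by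
  obtain ⟨C, hC, h⟩ := mom_all
  refine ⟨16 * C, by positivity, fun k _ _ _ hk => ?_⟩
  obtain ⟨B, hB⟩ : ∃ B, B = C / Fintype.card k := ⟨_, rfl⟩
  have hB0 : 0 ≤ B := by rw [hB]; positivity
  have e16 : 16 * C / Fintype.card k = 16 * B := by rw [hB]; ring
  rw [e16]
  have h00 : |Lin k (sm k 0 0) - 1| ≤ B := hB ▸ h 0 0 (by omega) k hk
  have h10 : |Lin k (sm k 1 0) - 0| ≤ B := hB ▸ h 1 0 (by omega) k hk
  have h20 : |Lin k (sm k 2 0) - 1| ≤ B := hB ▸ h 2 0 (by omega) k hk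
  have h30 : |Lin k (sm k 3 0) - 0| ≤ B := hB ▸ h 3 0 (by omega) k hk
  have h40 : |Lin k (sm k 4 0) - 3| ≤ B := hB ▸ h 4 0 (by omega) k hk
  have h50 : |Lin k (sm k 5 0) - 0| ≤ B := hB ▸ h 5 0 (by omega) k hk
  have h60 : |Lin k (sm k 6 0) - 14| ≤ B := hB ▸ h 6 0 (by omega) k hk
  have h01 : |Lin k (sm k 0 1) - 1| ≤ B := hB ▸ h 0 1 (by omega) k hk
  have h11 : |Lin k (sm k 1 1) - 0| ≤ B := hB ▸ h 1 1 (by omega) k hk
  have h21 : |Lin k (sm k 2 1) - 2| ≤ B := hB ▸ h 2 1 (by omega) k hk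
  have h31 : |Lin k (sm k 3 1) - 0| ≤ B := hB ▸ h 3 1 (by omega) k hk
  have h02 : |Lin k (sm k 0 2) - 2| ≤ B := hB ▸ h 0 2 (by omega) k hk
  rw [abs_le] at h00 h10 h20 h30 h40 h50 h60 h01 h11 h21 h31 h02
  have c0 : (chi 0 k : (Fin 5 → k) → ℝ) = sm k 1 0 := by funext c; simp [chi, sm]
  have c1 : (chi 1 k : (Fin 5 → k) → ℝ) = sm k 0 1 - sm k 0 0 := by funext c; simp [chi, sm]
  have c2 : (chi 2 k : (Fin 5 → k) → ℝ) = sm k 2 0 - sm k 0 1 := by funext c; simp [chi, sm]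
  have c3 : (chi 3 k : (Fin 5 → k) → ℝ) = sm k 3 0 - (3 : ℝ) • sm k 1 0 := by funext c; simp [chi, sm]
  have d00 : (fun c => chi 0 k c * chi 0 k c) = sm k 2 0 := by
    funext c; simp only [chi, sm, Matrix.cons_val]; ring
  have d01 : (fun c => chi 0 k c * chi 1 k c) = sm k 1 1 - sm k 1 0 := by
    funext c; simp only [chi, sm, Matrix.cons_val, Pi.sub_apply]; ring
  have d02 : (fun c => chi 0 k c * chi 2 k c) = sm k 3 0 - sm k 1 1 := by
    funext c; simp only [chi, sm, Matrix.cons_val, Pi.sub_apply]; ring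
  have d03 : (fun c => chi 0 k c * chi 3 k c) = sm k 4 0 - (3 : ℝ) • sm k 2 0 := by
    funext c; simp only [chi, sm, Matrix.cons_val, Pi.sub_apply, Pi.smul_apply, smul_eq_mul]; ring
  have d11 : (fun c => chi 1 k c * chi 1 k c) = sm k 0 2 - (2 : ℝ) • sm k 0 1 + sm k 0 0 := by
    funext c; simp only [chi, sm, Matrix.cons_val, Pi.sub_apply, Pi.add_apply, Pi.smul_apply, smul_eq_mul]; ring
  have d12 : (fun c => chi 1 k c * chi 2 k c) = sm k 2 1 - sm k 0 2 - sm k 2 0 + sm k 0 1 := by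
    funext c; simp only [chi, sm, Matrix.cons_val, Pi.sub_apply, Pi.add_apply]; ring
  have d13 : (fun c => chi 1 k c * chi 3 k c) = sm k 3 1 - (3 : ℝ) • sm k 1 1 - sm k 3 0 + (3 : ℝ) • sm k 1 0 := by
    funext c; simp only [chi, sm, Matrix.cons_val, Pi.sub_apply, Pi.add_apply, Pi.smul_apply, smul_eq_mul]; ring
  have d22 : (fun c => chi 2 k c * chi 2 k c) = sm k 4 0 - (2 : ℝ) • sm k 2 1 + sm k 0 2 := by
    funext c; simp only [chi, sm, Matrix.cons_val, Pi.sub_apply, Pi.add_apply, Pi.smul_apply, smul_eq_mul]; ring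
  have d23 : (fun c => chi 2 k c * chi 3 k c) = sm k 5 0 - (3 : ℝ) • sm k 3 0 - sm k 3 1 + (3 : ℝ) • sm k 1 1 := by
    funext c; simp only [chi, sm, Matrix.cons_val, Pi.sub_apply, Pi.add_apply, Pi.smul_apply, smul_eq_mul]; ring
  have d33 : (fun c => chi 3 k c * chi 3 k c) = sm k 6 0 - (6 : ℝ) • sm k 4 0 + (9 : ℝ) • sm k 2 0 := by
    funext c; simp only [chi, sm, Matrix.cons_val, Pi.sub_apply, Pi.add_apply, Pi.smul_apply, smul_eq_mul]; ring
  have hsym : ∀ i j : Fin 4, (fun c => chi i k c * chi j k c) = fun c => chi j k c * chi i k c := fun i j => by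
    funext c; exact mul_comm _ _
  have f01 := hsym 1 0
  have f02 := hsym 2 0
  have f03 := hsym 3 0
  have f12 := hsym 2 1
  have f13 := hsym 3 1
  have f23 := hsym 3 2
  constructor
  · intro i
    rw [abs_le]
    fin_cases i
    · show _ ≤ Lin k (chi 0 k) ∧ Lin k (chi 0 k) ≤ _
      rw [c0]; constructor <;> linarith
    · show _ ≤ Lin k (chi 1 k) ∧ Lin k (chi 1 k) ≤ _
      rw [c1, map_sub]; constructor <;> linarith
    · show _ ≤ Lin k (chi 2 k) ∧ Lin k (chi 2 k) ≤ _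
      rw [c2, map_sub]; constructor <;> linarith
    · show _ ≤ Lin k (chi 3 k) ∧ Lin k (chi 3 k) ≤ _
      rw [c3, map_sub, map_smul, smul_eq_mul]; constructor <;> linarith
  · have g00 : |Lin k (fun c => chi 0 k c * chi 0 k c) - 1| ≤ 16 * B := by
      rw [d00, abs_le]; constructor <;> linarith
    have g11 : |Lin k (fun c => chi 1 k c * chi 1 k c) - 1| ≤ 16 * B := by
      rw [d11, abs_le]; simp only [map_add, map_sub, map_smul, smul_eq_mul]; constructor <;> linarith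
    have g22 : |Lin k (fun c => chi 2 k c * chi 2 k c) - 1| ≤ 16 * B := by
      rw [d22, abs_le]; simp only [map_add, map_sub, map_smul, smul_eq_mul]; constructor <;> linarith
    have g33 : |Lin k (fun c => chi 3 k c * chi 3 k c) - 5| ≤ 16 * B := by
      rw [d33, abs_le]; simp only [map_add, map_sub, map_smul, smul_eq_mul]; constructor <;> linarith
    have g01 : |Lin k (fun c => chi 0 k c * chi 1 k c) - 0| ≤ 16 * B := by
      rw [d01, abs_le]; simp only [map_add, map_sub, map_smul, smul_eq_mul]; constructor <;> linarith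
    have g02 : |Lin k (fun c => chi 0 k c * chi 2 k c) - 0| ≤ 16 * B := by
      rw [d02, abs_le]; simp only [map_add, map_sub, map_smul, smul_eq_mul]; constructor <;> linarith
    have g03 : |Lin k (fun c => chi 0 k c * chi 3 k c) - 0| ≤ 16 * B := by
      rw [d03, abs_le]; simp only [map_add, map_sub, map_smul, smul_eq_mul]; constructor <;> linarith
    have g12 : |Lin k (fun c => chi 1 k c * chi 2 k c) - 0| ≤ 16 * B := by
      rw [d12, abs_le]; simp only [map_add, map_sub, map_smul, smul_eq_mul]; constructor <;> linarith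
    have g13 : |Lin k (fun c => chi 1 k c * chi 3 k c) - 0| ≤ 16 * B := by
      rw [d13, abs_le]; simp only [map_add, map_sub, map_smul, smul_eq_mul]; constructor <;> linarith
    have g23 : |Lin k (fun c => chi 2 k c * chi 3 k c) - 0| ≤ 16 * B := by
      rw [d23, abs_le]; simp only [map_add, map_sub, map_smul, smul_eq_mul]; constructor <;> linarith
    have g10 := g01; rw [← f01] at g10
    have g20 := g02; rw [← f02] at g20
    have g30 := g03; rw [← f03] at g30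
    have g21 := g12; rw [← f12] at g21
    have g31 := g13; rw [← f13] at g31
    have g32 := g23; rw [← f23] at g32
    intro i j
    fin_cases i <;> fin_cases j
    · exact g00
    · exact g01
    · exact g02
    · exact g03
    · exact g10
    · exact g11
    · exact g12
    · exact g13
    · exact g20
    · exact g21
    · exact g22
    · exact g23
    · exact g30
    · exact g31
    · exact g32
    · exact g33

end Run7.h876.SU
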