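import Pool.Agent.Run7.h876.SU.Loc2

/-!
# The local data over a number field, and thinness
-/

set_option autoImplicit false
set_option linter.unusedSectionVars false

namespace Run7.h876.SU

open NumberField IsDedekindDomain Finset Polynomial
open Run7.h876.MM (nv kv two_le_nv nv_pos avg norm_avg_le SZ mem_SZ card_SZ card_kv ring_char_two instFieldKv instFintypeKv instDecKv)
open Run7.h876.EN Run7.h876.PW Run7.h876.MN

open Classical in
theorem nonsep_close {k : Type} [Field k] [Fintype k] (h5 : (5 : k) ≠ 0) (g : (Fin 5 → k) → ℝ) {M : ℝ} (hM : 0 ≤ M)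
    (hg : ∀ t, |g t| ≤ M) :
    |av Finset.univ (fun t => if (quintic t).Separable then g t else 0) - av Finset.univ g| ≤ 5 * M / Fintype.card k := by
  have hq : (0 : ℝ) < Fintype.card k := by exact_mod_cast Fintype.card_pos
  have hN : ((Finset.univ : Finset (Fin 5 → k)).card : ℝ) = (Fintype.card k : ℝ) ^ 5 := by
    rw [Finset.card_univ, Fintype.card_fun, Fintype.card_fin]
    push_cast
    rfl
  unfold av
  rw [← sub_div, ← Finset.sum_sub_distrib, hN, abs_div, abs_of_pos (by positivity : (0 : ℝ) < (Fintype.card k : ℝ) ^ 5),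
    div_le_div_iff₀ (by positivity) hq]
  have h1 : |∑ t : Fin 5 → k, ((if (quintic t).Separable then g t else 0) - g t)| ≤ 5 * (Fintype.card k : ℝ) ^ 4 * M := by
    refine (Finset.abs_sum_le_sum_abs _ _).trans ?_
    calc ∑ t : Fin 5 → k, |(if (quintic t).Separable then g t else 0) - g t| ≤
          ∑ t : Fin 5 → k, if ¬ (quintic t).Separable then M else 0 := by
          refine Finset.sum_le_sum fun t _ => ?_
          by_cases h : (quintic t).Separable
          · rw [if_pos h, if_neg (not_not.2 h), sub_self, abs_zero]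
          · rw [if_neg h, if_pos h, zero_sub, abs_neg]
            exact hg t
      _ = (Finset.univ.filter fun t : Fin 5 → k => ¬ (quintic t).Separable).card * M := by
          rw [← Finset.sum_filter, Finset.sum_const, nsmul_eq_mul]
      _ ≤ _ := by
          refine mul_le_mul_of_nonneg_right ?_ hM
          exact_mod_cast card_nonsep h5
  calc |∑ t : Fin 5 → k, ((if (quintic t).Separable then g t else 0) - g t)| * (Fintype.card k : ℝ)
      ≤ 5 * (Fintype.card k : ℝ) ^ 4 * M * Fintype.card k := mul_le_mul_of_nonneg_right h1 hq.le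
    _ = _ := by ring

section
variable {F : Type} [Field F] [NumberField F]

open Classical in
/-- the local functions -/
noncomputable def ff (i : Fin 4) (v : HeightOneSpectrum (𝓞 F)) (t : Fin 5 → kv v) : ℝ :=
  if ringChar (kv v) ≠ 2 then (if (quintic t).Separable then chi i (kv v) t else 0) else 0

theorem ff_le (i : Fin 4) (v : HeightOneSpectrum (𝓞 F)) (t : Fin 5 → kv v) : |ff i v t| ≤ 76 := by
  unfold ff
  split_ifs with h1 h2
  · exact chi_le h1 i t
  · rw [abs_zero]; norm_num
  · rw [abs_zero]; norm_num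

/-- A bound for the means and the covariances at all but finitely many places gives the data. -/
theorem exists_loc {J I : Type} [Fintype J] [DecidableEq J] [Fintype I] [DecidableEq I]
    (f : I → ∀ v : HeightOneSpectrum (𝓞 F), (J → kv v) → ℝ) (D : I → ℝ) {M d E₀ : ℝ} (hd : 0 < d) (hD : ∀ i, d ≤ D i)
    (hM : 0 ≤ M) (hE₀ : 0 ≤ E₀) (hf : ∀ i v t, |f i v t| ≤ M) {S : Set (HeightOneSpectrum (𝓞 F))} (hS : S.Finite)
    (h1 : ∀ i v, v ∉ S → |av Finset.univ (f i v)| ≤ E₀ / nv v)
    (h2 : ∀ i j v, v ∉ S → |av Finset.univ (fun t => f i v t * f j v t) - (if i = j then D i else 0)| ≤ E₀ / nv v) :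
    ∃ 𝓛 : Loc F J I, 𝓛.f = f ∧ 𝓛.D = D := by
  classical
  obtain ⟨B, hB⟩ : ∃ B : ℝ, B = ∑ v ∈ hS.toFinset, (nv v : ℝ) := ⟨_, rfl⟩
  have hB0 : 0 ≤ B := by rw [hB]; exact Finset.sum_nonneg fun v _ => by positivity
  have hBv : ∀ v ∈ S, (nv v : ℝ) ≤ B := fun v hv => by
    rw [hB]
    exact Finset.single_le_sum (f := fun v => (nv v : ℝ)) (fun v _ => by positivity) (hS.mem_toFinset.2 hv)
  have hD0 : ∀ i, 0 ≤ D i := fun i => hd.le.trans (hD i)
  have hDs : 0 ≤ ∑ i, D i := Finset.sum_nonneg fun i _ => hD0 i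
  have hav : ∀ (v : HeightOneSpectrum (𝓞 F)) (g : (J → kv v) → ℝ) (c : ℝ), (∀ t, |g t| ≤ c) → |av Finset.univ g| ≤ c := by
    intro v g c hg
    rw [abs_le]
    constructor
    · rw [← av_const (Ω := J → kv v) (-c)]
      exact av_mono _ fun t => (abs_le.1 (hg t)).1
    · exact av_le_const fun t => (abs_le.1 (hg t)).2
  obtain ⟨E, hE⟩ : ∃ E : ℝ, E = E₀ + (M + M * M + ∑ i, D i) * B := ⟨_, rfl⟩
  have hEE : E₀ ≤ E := by
    have : 0 ≤ (M + M * M + ∑ i, D i) * B := by positivity
    rw [hE]; linarith
  have hEB : ∀ v ∈ S, ∀ x : ℝ, x ≤ M + M * M + ∑ i, D i → x ≤ E / nv v := by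
    intro v hv x hx
    have hq := nv_pos v
    rw [le_div_iff₀ hq]
    have h3 : x * nv v ≤ (M + M * M + ∑ i, D i) * B := by
      refine (mul_le_mul_of_nonneg_right hx hq.le).trans ?_
      exact mul_le_mul_of_nonneg_left (hBv v hv) (by positivity)
    rw [hE]; linarith
  refine ⟨{ f := f, D := D, M := M, E := E, d := d, d_pos := hd, d_le := hD, M_nonneg := hM, E_nonneg := hE₀.trans hEE,
            f_le := hf, mean_le := fun i v => ?_, cov_le := fun i j v => ?_ }, rfl, rfl⟩
  · by_cases hv : v ∈ S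
    · refine hEB v hv _ ((hav v _ M (hf i v)).trans ?_)
      have : 0 ≤ M * M := by positivity
      linarith
    · exact (h1 i v hv).trans (div_le_div_of_nonneg_right hEE (nv_pos v).le)
  · by_cases hv : v ∈ S
    · refine hEB v hv _ ((abs_sub _ _).trans ?_)
      have g1 : |av Finset.univ (fun t => f i v t * f j v t)| ≤ M * M := hav v _ (M * M) fun t => by
        rw [abs_mul]
        exact mul_le_mul (hf i v t) (hf j v t) (abs_nonneg _) hM
      have g2 : |(if i = j then D i else 0)| ≤ ∑ i, D i := by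
        split_ifs with hij
        · rw [abs_of_nonneg (hD0 i)]
          exact Finset.single_le_sum (f := D) (fun i _ => hD0 i) (Finset.mem_univ i)
        · rw [abs_zero]; exact hDs
      linarith
    · exact (h2 i j v hv).trans (div_le_div_of_nonneg_right hEE (nv_pos v).le)

/-- The places over two and five. -/
theorem finite_ten : {v : HeightOneSpectrum (𝓞 F) | ((10 : 𝓞 F)) ∈ v.asIdeal}.Finite := by
  have h1 := Ideal.finite_factors (R := 𝓞 F) (I := Ideal.span {(10 : 𝓞 F)}) (by
    rw [Ne, Ideal.zero_eq_bot, Ideal.span_singleton_eq_bot]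
    norm_num)
  refine h1.subset fun v hv => ?_
  show v.asIdeal ∣ Ideal.span {(10 : 𝓞 F)}
  rw [Ideal.dvd_span_singleton]
  exact hv

theorem good_char {v : HeightOneSpectrum (𝓞 F)} (hv : ((10 : 𝓞 F)) ∉ v.asIdeal) : ringChar (kv v) ≠ 2 ∧ (5 : kv v) ≠ 0 := by
  have h10 : (10 : kv v) ≠ 0 := by
    intro h
    apply hv
    rw [← Ideal.Quotient.eq_zero_iff_mem, map_ofNat]
    exact h
  constructor
  · intro h
    apply h10
    have h2 := ring_char_two h
    have : (10 : kv v) = 2 * 5 := by norm_num
    rw [this, h2, zero_mul]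
  · intro h
    apply h10
    have : (10 : kv v) = 2 * 5 := by norm_num
    rw [this, h, mul_zero]

variable (F) in
/-- **The local data of the Jacobians.** -/
theorem exists_jac : ∃ 𝓛 : Loc F (Fin 5) (Fin 4), 𝓛.f = ff ∧ 𝓛.D = DD := by
  classical
  obtain ⟨C, hC, h⟩ := chi_moments
  refine exists_loc (fun i v t => ff i v t) DD (M := 76) (d := 1) (E₀ := C + 5 * (76 * 76)) one_pos (fun i => ?_) (by norm_num)
    (by positivity) ff_le finite_ten (fun i v hv => ?_) (fun i j v hv => ?_)
  · fin_cases i <;> simp [DD]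
  · obtain ⟨h2, h5⟩ := good_char hv
    have hq := nv_pos v
    have e : (fun t => ff i v t) = fun t => if (quintic t).Separable then chi i (kv v) t else 0 := by
      funext t
      unfold ff
      rw [if_pos h2]
    rw [e]
    have g1 := nonsep_close h5 (chi i (kv v)) (M := 76) (by norm_num) (chi_le h2 i)
    have g2 := (h (kv v) h2).1 i
    have g3 : |av Finset.univ (chi i (kv v))| ≤ C / Fintype.card (kv v) := g2
    rw [card_kv] at g1 g3
    obtain ⟨x, hx⟩ : ∃ x, x = av Finset.univ (fun t => if (quintic t).Separable then chi i (kv v) t else 0) := ⟨_, rfl⟩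
    obtain ⟨y, hy⟩ : ∃ y, y = av Finset.univ (chi i (kv v)) := ⟨_, rfl⟩
    rw [← hx, ← hy] at g1
    rw [← hy] at g3
    rw [← hx]
    have e2 : x = (x - y) + y := by ring
    rw [e2]
    refine (abs_add_le _ _).trans ((add_le_add g1 g3).trans ?_)
    rw [← add_div]
    refine div_le_div_of_nonneg_right ?_ hq.le
    linarith
  · obtain ⟨h2, h5⟩ := good_char hv
    have hq := nv_pos v
    have e : (fun t => ff i v t * ff j v t) = fun t => if (quintic t).Separable then chi i (kv v) t * chi j (kv v) t else 0 := by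
      funext t
      unfold ff
      rw [if_pos h2, if_pos h2]
      split_ifs <;> ring
    have e' : (fun t => (fun i v t => ff i v t) i v t * (fun i v t => ff i v t) j v t) =
        fun t : Fin 5 → kv v => if (quintic t).Separable then chi i (kv v) t * chi j (kv v) t else 0 := e
    rw [e']
    have g1 := nonsep_close h5 (fun t => chi i (kv v) t * chi j (kv v) t) (M := 76 * 76) (by norm_num) (fun t => by
      rw [abs_mul]
      exact mul_le_mul (chi_le h2 i t) (chi_le h2 j t) (abs_nonneg _) (by norm_num))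
    have g2 := (h (kv v) h2).2 i j
    have g3 : |av Finset.univ (fun t => chi i (kv v) t * chi j (kv v) t) - (if i = j then DD i else 0)| ≤ C / Fintype.card (kv v) := g2
    rw [card_kv] at g1 g3
    obtain ⟨x, hx⟩ : ∃ x, x = av Finset.univ (fun t => if (quintic t).Separable then chi i (kv v) t * chi j (kv v) t else 0) := ⟨_, rfl⟩
    obtain ⟨y, hy⟩ : ∃ y, y = av Finset.univ (fun t => chi i (kv v) t * chi j (kv v) t) := ⟨_, rfl⟩
    obtain ⟨z, hz⟩ : ∃ z, z = (if i = j then DD i else 0) := ⟨_, rfl⟩
    rw [← hx, ← hy] at g1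
    rw [← hy, ← hz] at g3
    rw [← hx, ← hz]
    have e2 : x - z = (x - y) + (y - z) := by ring
    rw [e2]
    refine (abs_add_le _ _).trans ((add_le_add g1 g3).trans ?_)
    rw [← add_div]
    refine div_le_div_of_nonneg_right ?_ hq.le
    linarith

end

end Run7.h876.SU
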